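import Mathlib

/-!
# MP_7a9089_an: the sliding argument
-/

set_option autoImplicit false

open Filter Topology Set

namespace Pool.Agent.Run7.h235.OB

theorem slide {Y : ℝ → ℝ} (hY : Continuous Y) {Λ P c : ℝ} (hΛ : 0 < Λ) (hP : 0 < P)
    (hper : ∀ u, Y (u + Λ) = Y u + P)
    (htw : ∀ u u', u ≠ u' → Y (u + c) = Y (u' + c) →
      (Y (u + c + c) - Y (u' + c + c)) * (Y u - Y u') < 0) : StrictMono Y := by
  set K : Set (ℝ × ℝ) := {q | q ∈ Icc (0 : ℝ) Λ ×ˢ Icc (0 : ℝ) Λ ∧ Y (q.2 + q.1) ≤ Y q.2} with hK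
  have hKc : IsCompact K := by
    have h1 : IsCompact (Icc (0 : ℝ) Λ ×ˢ Icc (0 : ℝ) Λ) := isCompact_Icc.prod isCompact_Icc
    have h2 : IsClosed {q : ℝ × ℝ | Y (q.2 + q.1) ≤ Y q.2} :=
      isClosed_le (hY.comp (continuous_snd.add continuous_fst)) (hY.comp continuous_snd)
    exact h1.inter_right h2
  set B : Set ℝ := Prod.fst '' K with hB
  have hBc : IsCompact B := hKc.image continuous_fst
  have h0 : (0 : ℝ) ∈ B := ⟨(0, 0), ⟨⟨⟨le_rfl, hΛ.le⟩, ⟨le_rfl, hΛ.le⟩⟩, by simp⟩, rfl⟩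
  have hmem := hBc.sSup_mem ⟨0, h0⟩
  set d := sSup B with hd
  have hle : ∀ δ ∈ B, δ ≤ d := fun δ hδ => le_csSup hBc.bddAbove hδ
  -- reduction of `u` modulo `Λ`
  have hred : ∀ u : ℝ, ∃ v ∈ Icc (0 : ℝ) Λ, ∀ δ, Y (u + δ) - Y u = Y (v + δ) - Y v := by
    intro u
    obtain ⟨k, hk, -⟩ := existsUnique_add_zsmul_mem_Ico hΛ u 0
    refine ⟨u + k • Λ, ⟨hk.1, by linarith [hk.2]⟩, fun δ => ?_⟩
    have hpp : Function.Periodic (fun u => Y (u + δ) - Y u) Λ := by
      intro u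
      simp only
      rw [show u + Λ + δ = u + δ + Λ by ring, hper, hper]
      ring
    exact ((hpp.zsmul k) u).symm
  have hpos : ∀ δ, d < δ → δ ≤ Λ → ∀ u, Y u < Y (u + δ) := by
    intro δ h1 h2 u
    by_contra hcon
    push Not at hcon
    obtain ⟨v, hv, hv'⟩ := hred u
    have h3 : Y (v + δ) ≤ Y v := by
      have := hv' δ
      linarith
    have h4 : 0 ≤ d := hle 0 h0
    have h5 : δ ∈ B := ⟨(δ, v), ⟨⟨⟨by linarith, h2⟩, hv⟩, h3⟩, rfl⟩
    have := hle δ h5
    linarith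
  have hd0 : d = 0 := by
    by_contra hne
    obtain ⟨⟨δ₀, u₀⟩, ⟨⟨⟨h1, h2⟩, h3⟩, h4⟩, h5⟩ := hmem
    simp only at h1 h2 h3 h4 h5
    subst h5
    have hδ : 0 < d := lt_of_le_of_ne h1 (Ne.symm hne)
    have hδΛ : d < Λ := by
      rcases eq_or_lt_of_le h2 with h6 | h6
      · exfalso
        rw [h6, hper] at h4
        linarith
      · exact h6
    have hge : ∀ u, Y u ≤ Y (u + d) := by
      intro u
      have hcont : Tendsto (fun δ => Y (u + δ)) (𝓝[>] d) (𝓝 (Y (u + d))) :=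
        ((hY.comp (continuous_const.add continuous_id)).tendsto d).mono_left nhdsWithin_le_nhds
      refine ge_of_tendsto hcont ?_
      filter_upwards [Ioo_mem_nhdsGT hδΛ] with δ hδ'
      exact (hpos δ hδ'.1 hδ'.2.le u).le
    have heq : Y (u₀ + d) = Y u₀ := le_antisymm h4 (hge u₀)
    have h6 := htw (u₀ + d - c) (u₀ - c) (by intro h7; linarith) (by
      rw [sub_add_cancel, sub_add_cancel]
      exact heq)
    rw [sub_add_cancel, sub_add_cancel] at h6
    have h7 := hge (u₀ + c)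
    have h8 := hge (u₀ - c)
    rw [show u₀ + c + d = u₀ + d + c by ring] at h7
    rw [show u₀ - c + d = u₀ + d - c by ring] at h8
    have := mul_nonneg (sub_nonneg.mpr h7) (sub_nonneg.mpr h8)
    linarith
  intro u v huv
  obtain ⟨k, hk, -⟩ := existsUnique_add_zsmul_mem_Ioc hΛ v u
  have hpp : Function.Periodic (fun u => Y u - u / Λ * P) Λ := by
    intro u
    simp only
    rw [hper]
    field_simp
    ring
  have h1 : Y (v + k • Λ) - (v + k • Λ) / Λ * P = Y v - v / Λ * P := (hpp.zsmul k) v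
  have h2 : Y (v + k • Λ) = Y v + k * P := by
    have : (v + k • Λ) / Λ * P = v / Λ * P + k * P := by
      rw [zsmul_eq_mul]
      field_simp
    linarith
  have h3 : Y u < Y (v + k • Λ) := by
    have h4 := hpos (v + k • Λ - u) (by rw [hd0]; linarith [hk.1]) (by linarith [hk.2]) u
    rwa [add_sub_cancel] at h4
  have hk0 : k ≤ 0 := by
    by_contra hcon
    push Not at hcon
    have h5 : (1 : ℝ) ≤ k := by exact_mod_cast hcon
    have h6 := hk.2
    rw [zsmul_eq_mul] at h6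
    nlinarith
  have hk1 : (k : ℝ) * P ≤ 0 := mul_nonpos_of_nonpos_of_nonneg (by exact_mod_cast hk0) hP.le
  linarith

end Pool.Agent.Run7.h235.OB
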