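import Pool.Agent.Run7.h235.OB.Diff
import Pool.Agent.Run7.h235.OB.Slide

/-!
# MP_7a9089_an: foliations of the exterior by closed invariant curves: the leaves are graphs
-/

set_option autoImplicit false

open Filter Topology Set Real
open scoped ContDiff

namespace Pool.Agent.Run7.h235.OB

open Pool.Agent.Run7.h235.AE
open Pool.Agent.Results.MP_ae5b4e_an.WholeExteriorRigidity

/-- a `C¹` foliation of the exterior by closed curves winding once around the curve, in the
coordinates `(x, s)` -/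
structure Chart (Θ : ℝ × ℝ → ℝ × ℝ) : Prop where
  smooth : ContDiff ℝ 1 Θ
  reg : ∀ p v, fderiv ℝ Θ p v = 0 → v = 0
  pos : ∀ p, 0 < (Θ p).2
  per : ∀ r t, Θ (r, t + 1) = ((Θ (r, t)).1 + 2 * π, (Θ (r, t)).2)
  bij : ∀ x s, 0 < s → ∃! p, Θ p = (x, s)

/-- the leaf with the parameter `r` -/
def leafset (a b : ℝ → ℝ) (Θ : ℝ × ℝ → ℝ × ℝ) (r : ℝ) : Set (ℝ × ℝ) :=
  {z | ∃ t, z = tp a b (Θ (r, t)).1 (Θ (r, t)).2}

theorem Chart.inj {Θ : ℝ × ℝ → ℝ × ℝ} (hΘ : Chart Θ) {p q : ℝ × ℝ} (he : Θ p = Θ q) : p = q := by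
  obtain ⟨z, -, hz⟩ := hΘ.bij (Θ q).1 (Θ q).2 (hΘ.pos q)
  rw [hz p he, hz q rfl]

theorem Chart.per_int {Θ : ℝ × ℝ → ℝ × ℝ} (hΘ : Chart Θ) (r t : ℝ) (k : ℤ) :
    Θ (r, t + k) = ((Θ (r, t)).1 + k * (2 * π), (Θ (r, t)).2) := by
  have h1 : Function.Periodic (fun t => (Θ (r, t)).1 - t * (2 * π)) 1 := by
    intro t
    simp only [hΘ.per]
    ring
  have h2 : Function.Periodic (fun t => (Θ (r, t)).2) 1 := by
    intro t
    simp only [hΘ.per]
  have h3 := (h1.int_mul k) t
  have h4 := (h2.int_mul k) t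
  simp only [mul_one] at h3 h4
  refine Prod.ext ?_ ?_
  · simp only
    linarith
  · simp only
    exact h4

variable {a b : ℝ → ℝ} (h : ConvexCurve a b) {Θ : ℝ × ℝ → ℝ × ℝ} (hΘ : Chart Θ)
  (hinv : ∀ r y s, 0 < s → tp a b y (-s) ∈ leafset a b Θ r → tp a b y s ∈ leafset a b Θ r)
include h hΘ hinv

theorem tau_ex (r t : ℝ) : ∃ t', Θ (r, t') = NN h (Θ (r, t)) := by
  have hp := hΘ.pos (r, t)
  have h1 : tp a b (yf h (Θ (r, t)).1 (Θ (r, t)).2) (-sf h (Θ (r, t)).1 (Θ (r, t)).2) ∈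
      leafset a b Θ r := ⟨t, (tp_yf h hp).symm⟩
  obtain ⟨t1, ht1⟩ := hinv r _ _ (sf_pos h hp) h1
  obtain ⟨k, hk1, hk2⟩ := tp_inj h (sf_pos h hp) (hΘ.pos (r, t1)) ht1
  refine ⟨t1 + (-k : ℤ), ?_⟩
  rw [hΘ.per_int, hk1, hk2]
  refine Prod.ext ?_ ?_
  · simp only [NN]
    push_cast
    ring
  · simp only [NN]

omit hinv in
theorem deriv_hat {τ : ℝ × ℝ → ℝ} (hτ : ∀ p : ℝ × ℝ, Θ (p.1, τ p) = NN h (Θ p)) (p : ℝ × ℝ) :
    ∃ τ' : ℝ, HasDerivAt (fun t => τ (p.1, t)) τ' p.2 ∧
      (Θ (p.1, τ p)).2 * kp a b (Θ (p.1, τ p)).1 * dt (fderiv ℝ Θ (p.1, τ p)) * τ' =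
        (Θ p).2 * kp a b (Θ p).1 * dt (fderiv ℝ Θ p) := by
  set T : ℝ × ℝ → ℝ × ℝ := fun p => (p.1, τ p) with hT
  obtain ⟨N', hN', harea⟩ := area h (x₀ := (Θ p).1) (hΘ.pos p)
  have hd : ∀ q, HasFDerivAt Θ (fderiv ℝ Θ q) q := fun q =>
    (hΘ.smooth.differentiable (by norm_num) q).hasFDerivAt
  have hinj : Function.Injective (fderiv ℝ Θ (T p)).toLinearMap := by
    rw [← LinearMap.ker_eq_bot, LinearMap.ker_eq_bot']
    intro v hv
    exact hΘ.reg _ v hv
  set e : (ℝ × ℝ) ≃L[ℝ] (ℝ × ℝ) :=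
    (LinearEquiv.ofInjectiveEndo (fderiv ℝ Θ (T p)).toLinearMap hinj).toContinuousLinearEquiv
    with he
  have hee : (e : (ℝ × ℝ) →L[ℝ] (ℝ × ℝ)) = fderiv ℝ Θ (T p) := by
    rfl
  have hs : HasStrictFDerivAt Θ (e : (ℝ × ℝ) →L[ℝ] (ℝ × ℝ)) (T p) := by
    rw [hee]
    exact hΘ.smooth.contDiffAt.hasStrictFDerivAt (by norm_num)
  set g := hs.localInverse Θ e (T p) with hg
  have hg1 : ∀ᶠ z in 𝓝 (Θ (T p)), Θ (g z) = z := hs.eventually_right_inverse
  have hg2 : HasStrictFDerivAt g (e.symm : (ℝ × ℝ) →L[ℝ] (ℝ × ℝ)) (Θ (T p)) := hs.to_localInverse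
  have hN'' : HasFDerivAt (NN h) N' (Θ p) := hN'
  have hM : HasFDerivAt (fun q => NN h (Θ q)) (N'.comp (fderiv ℝ Θ p)) p :=
    HasFDerivAt.comp (g := NN h) p hN'' (hd p)
  have hMp : NN h (Θ p) = Θ (T p) := (hτ p).symm
  have hev : ∀ᶠ q in 𝓝 p, Θ (g (NN h (Θ q))) = NN h (Θ q) := by
    have h1 : Tendsto (fun q => NN h (Θ q)) (𝓝 p) (𝓝 (Θ (T p))) := by
      rw [← hMp]
      exact hM.continuousAt
    exact h1.eventually hg1
  have hTe : T =ᶠ[𝓝 p] fun q => g (NN h (Θ q)) := by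
    filter_upwards [hev] with q hq
    apply hΘ.inj
    rw [hq]
    exact hτ q
  have hg2' : HasFDerivAt g (e.symm : (ℝ × ℝ) →L[ℝ] (ℝ × ℝ)) (NN h (Θ p)) := by
    rw [hMp]
    exact hg2.hasFDerivAt
  set T' : (ℝ × ℝ) →L[ℝ] (ℝ × ℝ) :=
    (e.symm : (ℝ × ℝ) →L[ℝ] (ℝ × ℝ)).comp (N'.comp (fderiv ℝ Θ p)) with hT'
  have hTd : HasFDerivAt T T' p :=
    (HasFDerivAt.comp p hg2' hM).congr_of_eventuallyEq hTe
  have hcomp : (fderiv ℝ Θ (T p)).comp T' = N'.comp (fderiv ℝ Θ p) := by
    rw [← hee, hT']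
    ext <;> simp
  have hdt : dt (fderiv ℝ Θ (T p)) * dt T' = dt N' * dt (fderiv ℝ Θ p) := by
    rw [← dt_comp, ← dt_comp, hcomp]
  have hfst : ∀ v, (T' v).1 = v.1 := by
    have h1 : HasFDerivAt (fun q => (T q).1) ((ContinuousLinearMap.fst ℝ ℝ ℝ).comp T') p :=
      hTd.fst
    have h2 : HasFDerivAt (fun q : ℝ × ℝ => (T q).1) (ContinuousLinearMap.fst ℝ ℝ ℝ) p :=
      hasFDerivAt_fst
    have h3 := h1.unique h2
    intro v
    exact congrArg (fun L => L v) h3
  have hdtT : dt T' = (T' (0, 1)).2 := by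
    unfold dt
    rw [hfst, hfst]
    simp
  have hline : HasDerivAt (fun t : ℝ => (p.1, t)) ((0 : ℝ), (1 : ℝ)) p.2 :=
    (hasDerivAt_const p.2 p.1).prodMk (hasDerivAt_id p.2)
  have hder := (HasFDerivAt.comp_hasDerivAt (l := T) (f := fun t : ℝ => (p.1, t)) p.2 hTd hline).snd
  refine ⟨(T' (0, 1)).2, hder, ?_⟩
  have e1 : (Θ (T p)).1 = yf h (Θ p).1 (Θ p).2 := congrArg Prod.fst (hτ p)
  have e2 : (Θ (T p)).2 = sf h (Θ p).1 (Θ p).2 := congrArg Prod.snd (hτ p)
  show (Θ (T p)).2 * kp a b (Θ (T p)).1 * dt (fderiv ℝ Θ (T p)) * (T' (0, 1)).2 = _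
  rw [← hdtT, e1, e2, harea]
  linear_combination (sf h (Θ p).1 (Θ p).2 * kp a b (yf h (Θ p).1 (Θ p).2)) * hdt

theorem leaf_mono (r : ℝ) : StrictMono fun t => (Θ (r, t)).1 := by
  have hτex : ∀ p : ℝ × ℝ, ∃ t', Θ (p.1, t') = NN h (Θ p) := fun p =>
    tau_ex h hΘ hinv p.1 p.2
  choose τ hτ using hτex
  set J : ℝ → ℝ := fun t => (Θ (r, t)).2 * kp a b (Θ (r, t)).1 * dt (fderiv ℝ Θ (r, t)) with hJ
  have hJne : ∀ t, J t ≠ 0 := by
    intro t
    exact mul_ne_zero (mul_ne_zero (hΘ.pos _).ne' (h.curvature _).ne') (dt_ne (hΘ.reg _))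
  have hkc : Continuous (kp a b) := by
    unfold kp
    exact ((sa1 h).continuous.mul (sb2 h).continuous).sub
      ((sb1 h).continuous.mul (sa2 h).continuous)
  have hΘc : Continuous Θ := hΘ.smooth.continuous
  have hline : Continuous fun t : ℝ => (r, t) := continuous_const.prodMk continuous_id
  have hJc : Continuous J := by
    have h1 : Continuous fun t => fderiv ℝ Θ (r, t) :=
      (hΘ.smooth.continuous_fderiv (by norm_num)).comp hline
    have h2 : Continuous fun t => dt (fderiv ℝ Θ (r, t)) := by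
      unfold dt
      have k1 : Continuous fun t => fderiv ℝ Θ (r, t) (1, 0) := h1.clm_apply continuous_const
      have k2 : Continuous fun t => fderiv ℝ Θ (r, t) (0, 1) := h1.clm_apply continuous_const
      exact (k1.fst.mul k2.snd).sub (k1.snd.mul k2.fst)
    exact ((hΘc.comp hline).snd.mul (hkc.comp (hΘc.comp hline).fst)).mul h2
  have hJper : ∀ t, J (t + 1) = J t := by
    intro t
    have h1 : (fun p : ℝ × ℝ => Θ (p + (0, 1))) = fun p => Θ p + (2 * π, 0) := by
      funext p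
      have h2 := hΘ.per p.1 p.2
      have h3 : p + (0, 1) = (p.1, p.2 + 1) := by
        refine Prod.ext ?_ ?_ <;> simp
      rw [h3, h2]
      refine Prod.ext ?_ ?_ <;> simp
    have h4 : fderiv ℝ Θ ((r, t) + (0, 1)) = fderiv ℝ Θ (r, t) := by
      rw [← fderiv_comp_add_right, h1, fderiv_add_const]
    have h5 : ((r, t) + (0, 1) : ℝ × ℝ) = (r, t + 1) := by
      refine Prod.ext ?_ ?_ <;> simp
    rw [h5] at h4
    simp only [hJ]
    rw [h4, hΘ.per]
    have h6 : kp a b ((Θ (r, t)).1 + 2 * π) = kp a b (Θ (r, t)).1 := by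
      unfold kp
      rw [pda h, pdb h, per_d h (f := deriv a) (fun x => da1 h x) (pda h),
        per_d h (f := deriv b) (fun x => db1 h x) (pdb h)]
    simp only [h6]
  -- constant sign
  have hsign : (∀ t, 0 < J t) ∨ ∀ t, J t < 0 := by
    rcases lt_or_gt_of_ne (hJne 0) with h0 | h0
    · right
      intro t
      by_contra hcon
      push Not at hcon
      have h1 : (0 : ℝ) ∈ J '' univ := by
        have := isPreconnected_univ.intermediate_value (mem_univ (0 : ℝ)) (mem_univ t)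
          hJc.continuousOn
        exact this ⟨h0.le, hcon⟩
      obtain ⟨z, -, hz⟩ := h1
      exact hJne z hz
    · left
      intro t
      by_contra hcon
      push Not at hcon
      have h1 : (0 : ℝ) ∈ J '' univ := by
        have := isPreconnected_univ.intermediate_value (mem_univ t) (mem_univ (0 : ℝ))
          hJc.continuousOn
        exact this ⟨hcon, h0.le⟩
      obtain ⟨z, -, hz⟩ := h1
      exact hJne z hz
  obtain ⟨J₁, hJ₁p, hJ₁c, hJ₁per, hJ₁τ⟩ : ∃ J₁ : ℝ → ℝ, (∀ t, 0 < J₁ t) ∧ Continuous J₁ ∧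
      (∀ t, J₁ (t + 1) = J₁ t) ∧
      ∀ t, ∃ τ' : ℝ, HasDerivAt (fun t => τ (r, t)) τ' t ∧ J₁ (τ (r, t)) * τ' = J₁ t := by
    rcases hsign with hs | hs
    · exact ⟨J, hs, hJc, hJper, fun t => deriv_hat h hΘ hτ (r, t)⟩
    · refine ⟨fun t => -J t, fun t => by linarith [hs t], hJc.neg, fun t => ?_, fun t => ?_⟩
      · simp only [hJper]
      · obtain ⟨τ', h1, h2⟩ := deriv_hat h hΘ hτ (r, t)
        refine ⟨τ', h1, ?_⟩
        have h3 : J (τ (r, t)) * τ' = J t := h2
        linarith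
  set lam : ℝ → ℝ := fun t => ∫ u in (0 : ℝ)..t, J₁ u with hlam
  have hlamd : ∀ t, HasDerivAt lam (J₁ t) t := fun t =>
    intervalIntegral.integral_hasDerivAt_right (hJ₁c.intervalIntegrable _ _)
      hJ₁c.stronglyMeasurable.stronglyMeasurableAtFilter hJ₁c.continuousAt
  have hlamc : Continuous lam := continuous_iff_continuousAt.mpr fun t => (hlamd t).continuousAt
  have hlamm : StrictMono lam := strictMono_of_hasDerivAt_pos hlamd hJ₁p
  set Λ : ℝ := lam 1 - lam 0 with hΛ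
  have hΛp : 0 < Λ := by
    have := hlamm (show (0 : ℝ) < 1 by norm_num)
    linarith
  have hlamper : ∀ t, lam (t + 1) = lam t + Λ := by
    have h1 : ∀ t, HasDerivAt (fun t => lam (t + 1) - lam t) 0 t := by
      intro t
      have h2 : HasDerivAt (fun t => lam (t + 1)) (J₁ (t + 1)) t := by
        have := (hlamd (t + 1)).comp_add_const t 1
        exact this
      have h3 := h2.sub (hlamd t)
      rw [hJ₁per, sub_self] at h3
      exact h3
    have h2 := is_const_of_deriv_eq_zero (f := fun t => lam (t + 1) - lam t)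
      (fun t => (h1 t).differentiableAt) (fun t => (h1 t).deriv)
    intro t
    have h3 := h2 t 0
    simp only [zero_add] at h3
    linarith
  obtain ⟨c, hc⟩ : ∃ c, ∀ t, lam (τ (r, t)) = lam t + c := by
    have h1 : ∀ t, HasDerivAt (fun t => lam (τ (r, t)) - lam t) 0 t := by
      intro t
      obtain ⟨τ', h2, h3⟩ := hJ₁τ t
      have h4 := (cmp lam (fun t => τ (r, t)) (hlamd _) h2).sub (hlamd t)
      rw [h3, sub_self] at h4
      exact h4
    have h2 := is_const_of_deriv_eq_zero (f := fun t => lam (τ (r, t)) - lam t)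
      (fun t => (h1 t).differentiableAt) (fun t => (h1 t).deriv)
    refine ⟨lam (τ (r, 0)) - lam 0, fun t => ?_⟩
    have h3 := h2 t 0
    linarith
  have hlams : Function.Surjective lam := by
    have hpp : ∀ (n : ℕ) t, lam (t + n) = lam t + n * Λ := by
      intro n
      induction n with
      | zero => intro t; simp
      | succ n ih =>
        intro t
        push_cast
        rw [← add_assoc, hlamper, ih]
        ring
    apply hlamc.surjective
    · rw [tendsto_atTop]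
      intro B
      obtain ⟨n, hn⟩ := exists_nat_gt ((B - lam 0) / Λ)
      rw [div_lt_iff₀ hΛp] at hn
      filter_upwards [eventually_ge_atTop (n : ℝ)] with t ht
      have h1 := hlamm.monotone ht
      have h2 := hpp n 0
      rw [zero_add] at h2
      linarith
    · rw [tendsto_atBot]
      intro B
      obtain ⟨n, hn⟩ := exists_nat_gt ((lam 0 - B) / Λ)
      rw [div_lt_iff₀ hΛp] at hn
      filter_upwards [eventually_le_atBot (-(n : ℝ))] with t ht
      have h1 := hlamm.monotone ht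
      have h2 := hpp n (-n)
      rw [neg_add_cancel] at h2
      linarith
  set eq := hlamm.orderIsoOfSurjective lam hlams with heq
  set μ : ℝ → ℝ := fun u => eq.symm u with hμ
  have hμc : Continuous μ := eq.symm.continuous
  have hlm : ∀ u, lam (μ u) = u := fun u => eq.apply_symm_apply u
  have hml : ∀ t, μ (lam t) = t := fun t => eq.symm_apply_apply t
  have hμper : ∀ u, μ (u + Λ) = μ u + 1 := by
    intro u
    apply hlamm.injective
    rw [hlm, hlamper, hlm]
  have hμc' : ∀ u, μ (u + c) = τ (r, μ u) := by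
    intro u
    apply hlamm.injective
    rw [hlm, hc, hlm]
  have hYmono : StrictMono fun u => (Θ (r, μ u)).1 := by
    apply slide (P := 2 * π) (Λ := Λ) (c := c)
    · exact (hΘc.comp (continuous_const.prodMk hμc)).fst
    · exact hΛp
    · positivity
    · intro u
      simp only [hμper, hΘ.per]
    · intro u u' huu he
      have hX : ∀ u, Θ (r, μ (u + c)) = NN h (Θ (r, μ u)) := by
        intro u
        rw [hμc']
        exact hτ (r, μ u)
      have hX2 : ∀ u, (Θ (r, μ (u + c + c))).1 = yf h (Θ (r, μ (u + c))).1 (Θ (r, μ (u + c))).2 := by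
        intro u
        rw [hX (u + c)]
        rfl
      have hy : ∀ u, (Θ (r, μ (u + c))).1 = yf h (Θ (r, μ u)).1 (Θ (r, μ u)).2 := by
        intro u
        rw [hX u]
        rfl
      have hs : ∀ u, (Θ (r, μ (u + c))).2 = sf h (Θ (r, μ u)).1 (Θ (r, μ u)).2 := by
        intro u
        rw [hX u]
        rfl
      have hne : (Θ (r, μ (u + c))).2 ≠ (Θ (r, μ (u' + c))).2 := by
        intro h0
        apply huu
        have h1 : Θ (r, μ (u + c)) = Θ (r, μ (u' + c)) := Prod.ext he h0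
        have h2 := congrArg Prod.snd (hΘ.inj h1)
        have h3 : μ (u + c) = μ (u' + c) := h2
        have h4 := congrArg lam h3
        rw [hlm, hlm] at h4
        linarith
      rw [hX2 u, hX2 u']
      rcases lt_or_gt_of_ne hne with h1 | h1
      · have k1 : yf h (Θ (r, μ (u + c))).1 (Θ (r, μ (u + c))).2 <
            yf h (Θ (r, μ (u' + c))).1 (Θ (r, μ (u' + c))).2 := by
          rw [he]
          exact yf_mono h (hΘ.pos _) h1
        have k2 : (Θ (r, μ u')).1 < (Θ (r, μ u)).1 := by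
          apply yf_back h (hΘ.pos (r, μ u))
          · rw [← hy, ← hy]
            exact he
          · rw [← hs, ← hs]
            exact h1
        nlinarith
      · have k1 : yf h (Θ (r, μ (u' + c))).1 (Θ (r, μ (u' + c))).2 <
            yf h (Θ (r, μ (u + c))).1 (Θ (r, μ (u + c))).2 := by
          rw [he]
          exact yf_mono h (hΘ.pos _) h1
        have k2 : (Θ (r, μ u)).1 < (Θ (r, μ u')).1 := by
          apply yf_back h (hΘ.pos (r, μ u'))
          · rw [← hy, ← hy]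
            exact he.symm
          · rw [← hs, ← hs]
            exact h1
        nlinarith
  intro t t' htt
  have h1 := hYmono (hlamm htt)
  simp only [hml] at h1
  exact h1

end Pool.Agent.Run7.h235.OB
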