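import Pool.Agent.Run7.h235.OB.Ext

/-!
# MP_7a9089_an: the outer billiard map is differentiable and preserves the area
-/

set_option autoImplicit false

open Filter Topology Set Real
open scoped ContDiff

namespace Pool.Agent.Run7.h235.OB

open Pool.Agent.Run7.h235.AE
open Pool.Agent.Results.MP_ae5b4e_an.WholeExteriorRigidity

/-- determinant of a linear map of the plane -/
noncomputable def dt (L : ℝ × ℝ →L[ℝ] ℝ × ℝ) : ℝ :=
  (L (1, 0)).1 * (L (0, 1)).2 - (L (1, 0)).2 * (L (0, 1)).1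

theorem lin_apply (L : ℝ × ℝ →L[ℝ] ℝ × ℝ) (p q : ℝ) :
    L (p, q) = p • L (1, 0) + q • L (0, 1) := by
  rw [← map_smul, ← map_smul, ← map_add]
  simp

theorem dt_comp (L M : ℝ × ℝ →L[ℝ] ℝ × ℝ) : dt (L.comp M) = dt L * dt M := by
  have h1 := lin_apply L (M (1, 0)).1 (M (1, 0)).2
  have h2 := lin_apply L (M (0, 1)).1 (M (0, 1)).2
  rw [Prod.mk.eta] at h1 h2
  unfold dt
  rw [ContinuousLinearMap.comp_apply, ContinuousLinearMap.comp_apply, h1, h2]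
  simp only [Prod.fst_add, Prod.snd_add, Prod.smul_fst, Prod.smul_snd, smul_eq_mul]
  ring

theorem dt_ne {L : ℝ × ℝ →L[ℝ] ℝ × ℝ} (hL : ∀ v, L v = 0 → v = 0) : dt L ≠ 0 := by
  intro h0
  unfold dt at h0
  have h1 := lin_apply L (L (0, 1)).2 (-(L (1, 0)).2)
  have h2 := lin_apply L (L (0, 1)).1 (-(L (1, 0)).1)
  have z1 : L ((L (0, 1)).2, -(L (1, 0)).2) = 0 := by
    rw [h1]
    refine Prod.ext ?_ ?_
    · simp only [Prod.fst_add, Prod.smul_fst, smul_eq_mul, Prod.fst_zero]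
      linarith
    · simp only [Prod.snd_add, Prod.smul_snd, smul_eq_mul, Prod.snd_zero]
      ring
  have z2 : L ((L (0, 1)).1, -(L (1, 0)).1) = 0 := by
    rw [h2]
    refine Prod.ext ?_ ?_
    · simp only [Prod.fst_add, Prod.smul_fst, smul_eq_mul, Prod.fst_zero]
      ring
    · simp only [Prod.snd_add, Prod.smul_snd, smul_eq_mul, Prod.snd_zero]
      linarith
  have y1 := hL _ z1
  have y2 := hL _ z2
  have a1 : (L (0, 1)).2 = 0 := congrArg Prod.fst y1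
  have a2 : (L (0, 1)).1 = 0 := congrArg Prod.fst y2
  have a3 : L (0, 1) = 0 := Prod.ext a2 a1
  have a4 := congrArg Prod.snd (hL _ a3)
  simp at a4

theorem cmp (f g : ℝ → ℝ) {f' g' x : ℝ} (hf : HasDerivAt f f' (g x)) (hg : HasDerivAt g g' x) :
    HasDerivAt (fun t => f (g t)) (f' * g') x := hf.comp x hg

/-- curvature factor -/
noncomputable def kp (a b : ℝ → ℝ) (x : ℝ) : ℝ :=
  deriv a x * deriv (deriv b) x - deriv b x * deriv (deriv a) x

variable {a b : ℝ → ℝ} (h : ConvexCurve a b)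
include h

theorem contDiff_yf {x₀ s₀ : ℝ} (hs : 0 < s₀) :
    ContDiffAt ℝ 1 (fun p : ℝ × ℝ => yf h p.1 p.2) (x₀, s₀) := by
  set y₀ := yf h x₀ s₀ with hy₀
  set Q : (ℝ × ℝ) × ℝ → ℝ := fun v => wd a b v.1.1 v.2 * v.1.2 - nd a b v.1.1 v.2 with hQ
  have ca : ContDiff ℝ 1 a := h.smooth₁.of_le (by exact_mod_cast le_top)
  have cb : ContDiff ℝ 1 b := h.smooth₂.of_le (by exact_mod_cast le_top)
  have ca1 : ContDiff ℝ 1 (deriv a) := (sa1 h).of_le (by exact_mod_cast le_top)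
  have cb1 : ContDiff ℝ 1 (deriv b) := (sb1 h).of_le (by exact_mod_cast le_top)
  have hQc : ContDiff ℝ 1 Q := by
    have f1 : ContDiff ℝ 1 (fun v : (ℝ × ℝ) × ℝ => v.1.1) := contDiff_fst.comp contDiff_fst
    have f2 : ContDiff ℝ 1 (fun v : (ℝ × ℝ) × ℝ => v.1.2) := contDiff_snd.comp contDiff_fst
    have f3 : ContDiff ℝ 1 (fun v : (ℝ × ℝ) × ℝ => v.2) := contDiff_snd
    simp only [hQ, wd, nd]
    exact ((((ca1.comp f1).mul (cb1.comp f3)).sub ((cb1.comp f1).mul (ca1.comp f3))).mul f2).sub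
      ((((ca.comp f3).sub (ca.comp f1)).mul (cb1.comp f3)).sub
        (((cb.comp f3).sub (cb.comp f1)).mul (ca1.comp f3)))
  have hcd : ContDiffAt ℝ 1 Q ((x₀, s₀), y₀) := hQc.contDiffAt
  have hn := nd_pos h (yf_gt h x₀ s₀) (yf_lt h x₀ s₀)
  have hw := wd_pos h (x := x₀) hs
  have hsig := yf_sig h x₀ s₀
  rw [← hy₀] at hn hw hsig
  have hnw : nd a b x₀ y₀ = s₀ * wd a b x₀ y₀ := by
    unfold sig at hsig
    rw [div_eq_iff hn.ne'] at hsig
    rw [hsig]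
    field_simp
  have hQ0 : Q ((x₀, s₀), y₀) = 0 := by
    simp only [hQ]
    rw [hnw]
    ring
  have hder : fderiv ℝ Q ((x₀, s₀), y₀) ((0 : ℝ × ℝ), (1 : ℝ)) =
      (deriv a x₀ * deriv (deriv b) y₀ - deriv b x₀ * deriv (deriv a) y₀) * s₀ -
      ((a y₀ - a x₀) * deriv (deriv b) y₀ - (b y₀ - b x₀) * deriv (deriv a) y₀) := by
    have h1 : HasDerivAt (fun y : ℝ => ((x₀, s₀), y)) ((0 : ℝ × ℝ), (1 : ℝ)) y₀ :=
      (hasDerivAt_const y₀ (x₀, s₀)).prodMk (hasDerivAt_id y₀)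
    have h2 := ((hQc.differentiable (by norm_num)) ((x₀, s₀), y₀)).hasFDerivAt.comp_hasDerivAt y₀ h1
    exact h2.unique (((wd_d h x₀ y₀).mul_const s₀).sub (nd_d h x₀ y₀))
  have hne : fderiv ℝ Q ((x₀, s₀), y₀) ((0 : ℝ × ℝ), (1 : ℝ)) ≠ 0 := by
    rw [hder]
    intro h0
    have hM := h.convex x₀ y₀ (yf_gt h x₀ s₀) (yf_lt h x₀ s₀)
    have hk := h.curvature y₀
    have e : (deriv a y₀ * deriv (deriv b) y₀ - deriv b y₀ * deriv (deriv a) y₀) *
        (deriv a x₀ * (b y₀ - b x₀) - deriv b x₀ * (a y₀ - a x₀)) =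
        wd a b x₀ y₀ * ((a y₀ - a x₀) * deriv (deriv b) y₀ - (b y₀ - b x₀) * deriv (deriv a) y₀) -
        nd a b x₀ y₀ * (deriv a x₀ * deriv (deriv b) y₀ - deriv b x₀ * deriv (deriv a) y₀) := by
      unfold wd nd
      ring
    have e2 : (deriv a y₀ * deriv (deriv b) y₀ - deriv b y₀ * deriv (deriv a) y₀) *
        (deriv a x₀ * (b y₀ - b x₀) - deriv b x₀ * (a y₀ - a x₀)) = 0 := by
      rw [e, hnw]
      linear_combination (-wd a b x₀ y₀) * h0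
    have := mul_pos hk hM
    linarith
  have if₂ : (fderiv ℝ Q ((x₀, s₀), y₀) ∘L .inr ℝ (ℝ × ℝ) ℝ).IsInvertible := by
    refine ⟨ContinuousLinearEquiv.unitsEquivAut ℝ (Units.mk0 _ hne), ?_⟩
    ext
    simp
  have pn : (1 : WithTop ℕ∞) ≠ 0 := by norm_num
  set ψ := hcd.implicitFunction pn if₂ with hψ
  have h1 : ∀ᶠ p in 𝓝 (x₀, s₀), Q (p, ψ p) = Q ((x₀, s₀), y₀) :=
    hcd.eventually_apply_implicitFunction pn if₂
  have h2 : ContDiffAt ℝ 1 ψ (x₀, s₀) := hcd.contDiffAt_implicitFunction pn if₂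
  have h3 : ψ (x₀, s₀) = y₀ := hcd.implicitFunction_apply_self pn if₂
  have h4 : ∀ᶠ p : ℝ × ℝ in 𝓝 (x₀, s₀), p.1 < ψ p := by
    apply (continuousAt_fst).eventually_lt h2.continuousAt
    rw [h3]
    exact yf_gt h x₀ s₀
  have h5 : ∀ᶠ p : ℝ × ℝ in 𝓝 (x₀, s₀), ψ p < p.1 + 2 * π := by
    apply h2.continuousAt.eventually_lt (continuousAt_fst.add continuousAt_const)
    rw [h3]
    exact yf_lt h x₀ s₀
  have h6 : ∀ᶠ p : ℝ × ℝ in 𝓝 (x₀, s₀), 0 < p.2 :=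
    continuousAt_snd.eventually_const_lt hs
  refine h2.congr_of_eventuallyEq ?_
  filter_upwards [h1, h4, h5, h6] with p q1 q4 q5 q6
  apply yf_unique h q4 q5
  have hn' := nd_pos h q4 q5
  rw [hQ0] at q1
  simp only [hQ] at q1
  unfold sig
  rw [div_eq_iff hn'.ne']
  field_simp
  linarith

theorem contDiff_sf {x₀ s₀ : ℝ} (hs : 0 < s₀) :
    ContDiffAt ℝ 1 (fun p : ℝ × ℝ => sf h p.1 p.2) (x₀, s₀) := by
  have e : (fun p : ℝ × ℝ => sf h p.1 p.2) = fun p => (deriv a p.1 * (b (yf h p.1 p.2) - b p.1) -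
      deriv b p.1 * (a (yf h p.1 p.2) - a p.1)) / wd a b p.1 (yf h p.1 p.2) := by
    funext p
    exact sf_eq h p.1 p.2
  rw [e]
  have hy := contDiff_yf h (x₀ := x₀) hs
  have ca : ContDiff ℝ 1 a := h.smooth₁.of_le (by exact_mod_cast le_top)
  have cb : ContDiff ℝ 1 b := h.smooth₂.of_le (by exact_mod_cast le_top)
  have ca1 : ContDiff ℝ 1 (deriv a) := (sa1 h).of_le (by exact_mod_cast le_top)
  have cb1 : ContDiff ℝ 1 (deriv b) := (sb1 h).of_le (by exact_mod_cast le_top)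
  have g1 : ContDiffAt ℝ 1 (fun p : ℝ × ℝ => deriv a p.1) (x₀, s₀) :=
    (ca1.comp contDiff_fst).contDiffAt
  have g2 : ContDiffAt ℝ 1 (fun p : ℝ × ℝ => deriv b p.1) (x₀, s₀) :=
    (cb1.comp contDiff_fst).contDiffAt
  have g3 : ContDiffAt ℝ 1 (fun p : ℝ × ℝ => a p.1) (x₀, s₀) := (ca.comp contDiff_fst).contDiffAt
  have g4 : ContDiffAt ℝ 1 (fun p : ℝ × ℝ => b p.1) (x₀, s₀) := (cb.comp contDiff_fst).contDiffAt
  have k1 : ContDiffAt ℝ 1 (fun p : ℝ × ℝ => a (yf h p.1 p.2)) (x₀, s₀) :=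
    ca.contDiffAt.comp (x₀, s₀) hy
  have k2 : ContDiffAt ℝ 1 (fun p : ℝ × ℝ => b (yf h p.1 p.2)) (x₀, s₀) :=
    cb.contDiffAt.comp (x₀, s₀) hy
  have k3 : ContDiffAt ℝ 1 (fun p : ℝ × ℝ => deriv a (yf h p.1 p.2)) (x₀, s₀) :=
    ca1.contDiffAt.comp (x₀, s₀) hy
  have k4 : ContDiffAt ℝ 1 (fun p : ℝ × ℝ => deriv b (yf h p.1 p.2)) (x₀, s₀) :=
    cb1.contDiffAt.comp (x₀, s₀) hy
  refine ((g1.mul (k2.sub g4)).sub (g2.mul (k1.sub g3))).div ?_ (wd_pos h hs).ne'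
  unfold wd
  exact (g1.mul k4).sub (g2.mul k3)

/-- the outer billiard map in the coordinates `(x, s)` -/
noncomputable def NN (h : ConvexCurve a b) (p : ℝ × ℝ) : ℝ × ℝ := (yf h p.1 p.2, sf h p.1 p.2)

theorem area {x₀ s₀ : ℝ} (hs : 0 < s₀) : ∃ N' : ℝ × ℝ →L[ℝ] ℝ × ℝ,
    HasFDerivAt (NN h) N' (x₀, s₀) ∧
      s₀ * kp a b x₀ = sf h x₀ s₀ * kp a b (yf h x₀ s₀) * dt N' := by
  have hN : ContDiffAt ℝ 1 (NN h) (x₀, s₀) := (contDiff_yf h hs).prodMk (contDiff_sf h hs)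
  have hd : HasFDerivAt (NN h) (fderiv ℝ (NN h) (x₀, s₀)) (x₀, s₀) :=
    (hN.differentiableAt (by norm_num)).hasFDerivAt
  refine ⟨_, hd, ?_⟩
  set N' := fderiv ℝ (NN h) (x₀, s₀) with hN'
  -- partial derivatives
  have l1 : HasDerivAt (fun x : ℝ => (x, s₀)) ((1 : ℝ), (0 : ℝ)) x₀ :=
    (hasDerivAt_id x₀).prodMk (hasDerivAt_const x₀ s₀)
  have l2 : HasDerivAt (fun s : ℝ => (x₀, s)) ((0 : ℝ), (1 : ℝ)) s₀ :=
    (hasDerivAt_const s₀ x₀).prodMk (hasDerivAt_id s₀)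
  have m1 := hd.comp_hasDerivAt x₀ l1
  have m2 := hd.comp_hasDerivAt s₀ l2
  have yx : HasDerivAt (fun x => yf h x s₀) (N' (1, 0)).1 x₀ := m1.fst
  have sx : HasDerivAt (fun x => sf h x s₀) (N' (1, 0)).2 x₀ := m1.snd
  have ys : HasDerivAt (fun s => yf h x₀ s) (N' (0, 1)).1 s₀ := m2.fst
  have ss : HasDerivAt (fun s => sf h x₀ s) (N' (0, 1)).2 s₀ := m2.snd
  set y₀ := yf h x₀ s₀ with hy₀
  set t₀ := sf h x₀ s₀ with ht₀
  have ex1 : deriv a x₀ + s₀ * deriv (deriv a) x₀ = deriv a y₀ * (N' (1, 0)).1 +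
      (-(N' (1, 0)).2 * deriv a y₀ + -t₀ * (deriv (deriv a) y₀ * (N' (1, 0)).1)) := by
    have c1 : HasDerivAt (fun x => a x + s₀ * deriv a x) (deriv a x₀ + s₀ * deriv (deriv a) x₀) x₀ :=
      (da h x₀).add ((da1 h x₀).const_mul s₀)
    have c2 : HasDerivAt (fun x => a (yf h x s₀) + -sf h x s₀ * deriv a (yf h x s₀))
        (deriv a y₀ * (N' (1, 0)).1 +
          (-(N' (1, 0)).2 * deriv a y₀ + -t₀ * (deriv (deriv a) y₀ * (N' (1, 0)).1))) x₀ :=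
      (cmp a (fun x => yf h x s₀) (da h y₀) yx).add
        (sx.neg.mul (cmp (deriv a) (fun x => yf h x s₀) (da1 h y₀) yx))
    have c3 : (fun x => a x + s₀ * deriv a x) =
        fun x => a (yf h x s₀) + -sf h x s₀ * deriv a (yf h x s₀) := by
      funext x
      exact congrArg Prod.fst (tp_yf h (x := x) hs)
    rw [c3] at c1
    exact c1.unique c2
  have ex2 : deriv b x₀ + s₀ * deriv (deriv b) x₀ = deriv b y₀ * (N' (1, 0)).1 +
      (-(N' (1, 0)).2 * deriv b y₀ + -t₀ * (deriv (deriv b) y₀ * (N' (1, 0)).1)) := by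
    have c1 : HasDerivAt (fun x => b x + s₀ * deriv b x) (deriv b x₀ + s₀ * deriv (deriv b) x₀) x₀ :=
      (db h x₀).add ((db1 h x₀).const_mul s₀)
    have c2 : HasDerivAt (fun x => b (yf h x s₀) + -sf h x s₀ * deriv b (yf h x s₀))
        (deriv b y₀ * (N' (1, 0)).1 +
          (-(N' (1, 0)).2 * deriv b y₀ + -t₀ * (deriv (deriv b) y₀ * (N' (1, 0)).1))) x₀ :=
      (cmp b (fun x => yf h x s₀) (db h y₀) yx).add
        (sx.neg.mul (cmp (deriv b) (fun x => yf h x s₀) (db1 h y₀) yx))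
    have c3 : (fun x => b x + s₀ * deriv b x) =
        fun x => b (yf h x s₀) + -sf h x s₀ * deriv b (yf h x s₀) := by
      funext x
      exact congrArg Prod.snd (tp_yf h (x := x) hs)
    rw [c3] at c1
    exact c1.unique c2
  have es1 : deriv a x₀ = deriv a y₀ * (N' (0, 1)).1 +
      (-(N' (0, 1)).2 * deriv a y₀ + -t₀ * (deriv (deriv a) y₀ * (N' (0, 1)).1)) := by
    have c1 : HasDerivAt (fun s : ℝ => a x₀ + s * deriv a x₀) (deriv a x₀) s₀ := by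
      simpa using ((hasDerivAt_id s₀).mul_const (deriv a x₀)).const_add (a x₀)
    have c2 : HasDerivAt (fun s => a (yf h x₀ s) + -sf h x₀ s * deriv a (yf h x₀ s))
        (deriv a y₀ * (N' (0, 1)).1 +
          (-(N' (0, 1)).2 * deriv a y₀ + -t₀ * (deriv (deriv a) y₀ * (N' (0, 1)).1))) s₀ :=
      (cmp a (fun s => yf h x₀ s) (da h y₀) ys).add
        (ss.neg.mul (cmp (deriv a) (fun s => yf h x₀ s) (da1 h y₀) ys))
    have c3 : (fun s : ℝ => a x₀ + s * deriv a x₀) =ᶠ[𝓝 s₀]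
        fun s => a (yf h x₀ s) + -sf h x₀ s * deriv a (yf h x₀ s) := by
      filter_upwards [lt_mem_nhds hs] with s hs'
      exact congrArg Prod.fst (tp_yf h (x := x₀) hs')
    exact (c1.congr_of_eventuallyEq c3.symm).unique c2
  have es2 : deriv b x₀ = deriv b y₀ * (N' (0, 1)).1 +
      (-(N' (0, 1)).2 * deriv b y₀ + -t₀ * (deriv (deriv b) y₀ * (N' (0, 1)).1)) := by
    have c1 : HasDerivAt (fun s : ℝ => b x₀ + s * deriv b x₀) (deriv b x₀) s₀ := by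
      simpa using ((hasDerivAt_id s₀).mul_const (deriv b x₀)).const_add (b x₀)
    have c2 : HasDerivAt (fun s => b (yf h x₀ s) + -sf h x₀ s * deriv b (yf h x₀ s))
        (deriv b y₀ * (N' (0, 1)).1 +
          (-(N' (0, 1)).2 * deriv b y₀ + -t₀ * (deriv (deriv b) y₀ * (N' (0, 1)).1))) s₀ :=
      (cmp b (fun s => yf h x₀ s) (db h y₀) ys).add
        (ss.neg.mul (cmp (deriv b) (fun s => yf h x₀ s) (db1 h y₀) ys))
    have c3 : (fun s : ℝ => b x₀ + s * deriv b x₀) =ᶠ[𝓝 s₀]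
        fun s => b (yf h x₀ s) + -sf h x₀ s * deriv b (yf h x₀ s) := by
      filter_upwards [lt_mem_nhds hs] with s hs'
      exact congrArg Prod.snd (tp_yf h (x := x₀) hs')
    exact (c1.congr_of_eventuallyEq c3.symm).unique c2
  unfold kp dt
  have key : s₀ * (deriv a x₀ * deriv (deriv b) x₀ - deriv b x₀ * deriv (deriv a) x₀) =
      deriv a x₀ * (deriv b x₀ + s₀ * deriv (deriv b) x₀) -
        deriv b x₀ * (deriv a x₀ + s₀ * deriv (deriv a) x₀) := by ring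
  rw [key, ex1, ex2]
  nth_rewrite 1 [es1]
  nth_rewrite 1 [es2]
  ring

end Pool.Agent.Run7.h235.OB
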