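import Pool.Agent.Run7.h235.AE.Final

/-!
# MP_7a9089_an: the outer billiard map in tangential coordinates

The point of the exterior with the coordinates `(x, s)`, `s > 0`, is `tp a b x s`; the outer
billiard map sends it to the point with the coordinates `(yf x s, sf x s)`.
-/

set_option autoImplicit false

open Filter Topology Set Real
open scoped ContDiff

namespace Pool.Agent.Run7.h235.OB

open Pool.Agent.Run7.h235.AE
open Pool.Agent.Results.MP_ae5b4e_an.WholeExteriorRigidity

variable {a b : ℝ → ℝ} (h : ConvexCurve a b)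

/-- foot of the second tangent line through `tp a b x s` -/
noncomputable def yf (h : ConvexCurve a b) (x s : ℝ) : ℝ := (sig_surj h x s⁻¹).choose

/-- length of the second tangent segment through `tp a b x s` -/
noncomputable def sf (h : ConvexCurve a b) (x s : ℝ) : ℝ :=
  -(sig a b (yf h x s) (x + 2 * π))⁻¹

include h

theorem yf_gt (x s : ℝ) : x < yf h x s := (sig_surj h x s⁻¹).choose_spec.1.1

theorem yf_lt (x s : ℝ) : yf h x s < x + 2 * π := (sig_surj h x s⁻¹).choose_spec.1.2

theorem yf_sig (x s : ℝ) : sig a b x (yf h x s) = s⁻¹ := (sig_surj h x s⁻¹).choose_spec.2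

theorem sig_lt_iff {x y y' : ℝ} (h1 : x < y) (h2 : y < x + 2 * π) (h1' : x < y')
    (h2' : y' < x + 2 * π) : sig a b x y < sig a b x y' ↔ y' < y :=
  (sig_anti h x).lt_iff_gt ⟨h1, h2⟩ ⟨h1', h2'⟩

theorem yf_unique {x s y : ℝ} (h1 : x < y) (h2 : y < x + 2 * π) (h3 : sig a b x y = s⁻¹) :
    yf h x s = y := by
  rw [← yf_sig h x s] at h3
  exact ((sig_anti h x).injOn ⟨h1, h2⟩ ⟨yf_gt h x s, yf_lt h x s⟩ h3).symm

theorem wd_pos {x s : ℝ} (hs : 0 < s) : 0 < wd a b x (yf h x s) := by
  have h1 := yf_sig h x s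
  have h2 := nd_pos h (yf_gt h x s) (yf_lt h x s)
  unfold sig at h1
  rw [div_eq_iff h2.ne'] at h1
  rw [h1]
  exact mul_pos (inv_pos.mpr hs) h2

theorem sf_eq (x s : ℝ) : sf h x s = (deriv a x * (b (yf h x s) - b x) -
    deriv b x * (a (yf h x s) - a x)) / wd a b x (yf h x s) := by
  unfold sf sig
  rw [wd_swap h, nd_swap h, neg_div, inv_neg, neg_neg, inv_div]

theorem sf_pos {x s : ℝ} (hs : 0 < s) : 0 < sf h x s := by
  rw [sf_eq]
  exact div_pos (h.convex _ _ (yf_gt h x s) (yf_lt h x s)) (wd_pos h hs)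

theorem tp_yf {x s : ℝ} (hs : 0 < s) : tp a b x s = tp a b (yf h x s) (-sf h x s) := by
  have h1 := tp_swap h (yf_gt h x s) (yf_lt h x s) (wd_pos h hs).ne'
  rw [yf_sig, inv_inv] at h1
  rw [h1]
  unfold sf
  rw [neg_neg]

theorem yf_mono {x s s' : ℝ} (hs : 0 < s) (hss : s < s') : yf h x s < yf h x s' := by
  rw [← sig_lt_iff h (yf_gt h x s') (yf_lt h x s') (yf_gt h x s) (yf_lt h x s), yf_sig, yf_sig]
  exact (inv_lt_inv₀ (hs.trans hss) hs).mpr hss

theorem yf_back {w w' s s' : ℝ} (hs : 0 < s) (he : yf h w s = yf h w' s')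
    (hss : sf h w s < sf h w' s') : w' < w := by
  have h1 : sig a b (yf h w s) (w + 2 * π) = -(sf h w s)⁻¹ := by
    unfold sf
    rw [inv_neg, inv_inv, neg_neg]
  have h2 : sig a b (yf h w s) (w' + 2 * π) = -(sf h w' s')⁻¹ := by
    rw [he]
    unfold sf
    rw [inv_neg, inv_inv, neg_neg]
  have h3 : sig a b (yf h w s) (w + 2 * π) < sig a b (yf h w s) (w' + 2 * π) := by
    rw [h1, h2, neg_lt_neg_iff]
    exact (inv_lt_inv₀ ((sf_pos h hs).trans hss) (sf_pos h hs)).mpr hss
  have g1 := yf_gt h w s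
  have g2 := yf_lt h w s
  have g3 := yf_gt h w' s'
  have g4 := yf_lt h w' s'
  rw [← he] at g3 g4
  have h4 := (sig_lt_iff h g2 (by linarith) g4 (by linarith)).mp h3
  linarith

theorem tp_per' (x s : ℝ) (k : ℤ) : tp a b (x + k * (2 * π)) s = tp a b x s := by
  have hper : Function.Periodic (fun x => tp a b x s) (2 * π) := fun x => tp_per h x s
  exact (hper.int_mul k) x

theorem tp_inj {x x' s s' : ℝ} (hs : 0 < s) (hs' : 0 < s') (he : tp a b x s = tp a b x' s') :
    ∃ k : ℤ, x' = x + k * (2 * π) ∧ s' = s := by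
  have hπ : (0 : ℝ) < 2 * π := by positivity
  obtain ⟨k, hk, -⟩ := existsUnique_add_zsmul_mem_Ico hπ x' x
  set z := x' + k • (2 * π) with hz
  have hzk : z = x' + (k : ℝ) * (2 * π) := by
    rw [hz, zsmul_eq_mul]
  have he' : tp a b x s = tp a b z s' := by
    rw [he, hzk, tp_per' h]
  refine ⟨-k, ?_⟩
  unfold tp at he'
  have e1 : a x + s * deriv a x = a z + s' * deriv a z := congrArg Prod.fst he'
  have e2 : b x + s * deriv b x = b z + s' * deriv b z := congrArg Prod.snd he'
  rcases eq_or_lt_of_le hk.1 with h3 | h3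
  · refine ⟨?_, ?_⟩
    · rw [Int.cast_neg]
      linarith
    · rw [← h3] at e1 e2
      have e3 : (s' - s) * deriv a x = 0 := by linarith
      have e4 : (s' - s) * deriv b x = 0 := by linarith
      rcases tne h x with h5 | h5
      · have := (mul_eq_zero.mp e3).resolve_right h5
        linarith
      · have := (mul_eq_zero.mp e4).resolve_right h5
        linarith
  · exfalso
    have n1 := nd_pos h h3 hk.2
    have n2 := h.convex x z h3 hk.2
    have f1 : nd a b x z = s * wd a b x z := by
      unfold nd wd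
      linear_combination (deriv b z) * (-e1) + (deriv a z) * e2
    have f2 : deriv a x * (b z - b x) - deriv b x * (a z - a x) = -(s' * wd a b x z) := by
      unfold wd
      linear_combination (deriv b x) * e1 - (deriv a x) * e2
    have w1 : 0 < wd a b x z := by
      rw [f1] at n1
      exact (mul_pos_iff_of_pos_left hs).mp n1
    rw [f2] at n2
    have := mul_pos hs' w1
    linarith

theorem yf_per (x s : ℝ) (k : ℤ) : yf h (x + k * (2 * π)) s = yf h x s + k * (2 * π) := by
  have hk : ∀ x, yf h (x + 2 * π) s = yf h x s + 2 * π := by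
    intro x
    apply yf_unique h
    · linarith [yf_gt h x s]
    · linarith [yf_lt h x s]
    · rw [sig_per h, yf_sig]
  have hper : Function.Periodic (fun x => yf h x s - x) (2 * π) := by
    intro x
    simp only
    rw [hk]
    ring
  have := (hper.int_mul k) x
  linarith

end Pool.Agent.Run7.h235.OB
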