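import Pool.Agent.Run7.h235.OB.Label

/-!
# MP_7a9089_an: foliations in the plane, and the exclusion of points of zero curvature
-/

set_option autoImplicit false

open Filter Topology Set Real
open scoped ContDiff

namespace Pool.Agent.Run7.h235.OB

open Pool.Agent.Run7.h235.AE

/-- a smooth closed strictly convex curve; the curvature may have zeros -/
structure WCurve (a b : ℝ → ℝ) : Prop where
  smooth₁ : ContDiff ℝ ∞ a
  smooth₂ : ContDiff ℝ ∞ b
  per₁ : ∀ x, a (x + 2 * π) = a x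
  per₂ : ∀ x, b (x + 2 * π) = b x
  regular : ∀ x, deriv a x ≠ 0 ∨ deriv b x ≠ 0
  convex : ∀ x x', x < x' → x' < x + 2 * π →
    0 < deriv a x * (b x' - b x) - deriv b x * (a x' - a x)

/-- a `C¹` foliation by closed curves -/
structure PFol (E : Set (ℝ × ℝ)) (Φ : ℝ × ℝ → ℝ × ℝ) : Prop where
  smooth : ContDiff ℝ 1 Φ
  regular : ∀ p v, fderiv ℝ Φ p v = 0 → v = 0
  per : ∀ r t, Φ (r, t + 1) = Φ (r, t)
  inj : ∀ r t r' t', Φ (r, t) = Φ (r', t') → r = r' ∧ ∃ k : ℤ, t' = t + k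
  range : Set.range Φ = E

theorem loc_inv {Ψ : ℝ × ℝ → ℝ × ℝ} (hΨ : ContDiff ℝ 1 Ψ) {q : ℝ × ℝ}
    (hq : ∀ v, fderiv ℝ Ψ q v = 0 → v = 0) :
    ∃ g : ℝ × ℝ → ℝ × ℝ, ContDiffAt ℝ 1 g (Ψ q) ∧ g (Ψ q) = q ∧
      ∀ᶠ z in 𝓝 (Ψ q), Ψ (g z) = z := by
  have hinj : Function.Injective (fderiv ℝ Ψ q).toLinearMap := by
    rw [← LinearMap.ker_eq_bot, LinearMap.ker_eq_bot']
    intro v hv
    exact hq v hv
  set e : (ℝ × ℝ) ≃L[ℝ] (ℝ × ℝ) :=
    (LinearEquiv.ofInjectiveEndo (fderiv ℝ Ψ q).toLinearMap hinj).toContinuousLinearEquiv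
    with he
  have hee : (e : (ℝ × ℝ) →L[ℝ] (ℝ × ℝ)) = fderiv ℝ Ψ q := by
    rfl
  have hd : HasFDerivAt Ψ (e : (ℝ × ℝ) →L[ℝ] (ℝ × ℝ)) q := by
    rw [hee]
    exact (hΨ.differentiable (by norm_num) q).hasFDerivAt
  have hc : ContDiffAt ℝ 1 Ψ q := hΨ.contDiffAt
  refine ⟨hc.localInverse hd (by norm_num), hc.to_localInverse hd (by norm_num),
    hc.localInverse_apply_image hd (by norm_num), ?_⟩
  exact (hc.hasStrictFDerivAt' hd (by norm_num)).eventually_right_inverse

open Classical in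
/-- label of the leaf through a point -/
noncomputable def rlab (Φ : ℝ × ℝ → ℝ × ℝ) (z : ℝ × ℝ) : ℝ :=
  if hz : ∃ p, Φ p = z then hz.choose.1 else 0

theorem rlab_eq {E : Set (ℝ × ℝ)} {Φ : ℝ × ℝ → ℝ × ℝ} (hΦ : PFol E Φ) {p z : ℝ × ℝ}
    (hz : Φ p = z) : rlab Φ z = p.1 := by
  have h1 : ∃ p, Φ p = z := ⟨p, hz⟩
  unfold rlab
  rw [dif_pos h1]
  exact (hΦ.inj h1.choose.1 h1.choose.2 p.1 p.2 (h1.choose_spec.trans hz.symm)).1

theorem rlab_diff {E : Set (ℝ × ℝ)} {Φ : ℝ × ℝ → ℝ × ℝ} (hΦ : PFol E Φ) (p : ℝ × ℝ) :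
    DifferentiableAt ℝ (rlab Φ) (Φ p) := by
  obtain ⟨g, hg1, -, hg3⟩ := loc_inv hΦ.smooth (q := p) (hΦ.regular p)
  have h1 : rlab Φ =ᶠ[𝓝 (Φ p)] fun z => (g z).1 := by
    filter_upwards [hg3] with z hz using rlab_eq hΦ hz
  have h2 : DifferentiableAt ℝ (fun z => (g z).1) (Φ p) :=
    (hg1.differentiableAt (by norm_num)).fst
  exact h2.congr_of_eventuallyEq h1

theorem per_int' {E : Set (ℝ × ℝ)} {Φ : ℝ × ℝ → ℝ × ℝ} (hΦ : PFol E Φ) (r t : ℝ) (k : ℤ) :
    Φ (r, t + k) = Φ (r, t) := by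
  have h1 : Function.Periodic (fun t => Φ (r, t)) 1 := hΦ.per r
  have h2 := (h1.int_mul k) t
  simp only [mul_one] at h2
  exact h2

variable {a b : ℝ → ℝ} (h : WCurve a b)

/-- the exterior of the curve -/
def Ext (a b : ℝ → ℝ) : Set (ℝ × ℝ) := {z | ∃ x s, 0 < s ∧ z = tp a b x s}

variable {E : Set (ℝ × ℝ)} {Φ : ℝ × ℝ → ℝ × ℝ} (hΦ : PFol E Φ) (hE : Ext a b ⊆ E)
  (hinv : ∀ r x s, 0 < s → ((∃ t, tp a b x (-s) = Φ (r, t)) ↔ ∃ t, tp a b x s = Φ (r, t)))

include h in
theorem wda (x : ℝ) : HasDerivAt a (deriv a x) x :=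
  (h.smooth₁.differentiable (by norm_num) x).hasDerivAt

include h in
theorem wdb (x : ℝ) : HasDerivAt b (deriv b x) x :=
  (h.smooth₂.differentiable (by norm_num) x).hasDerivAt

include h in
theorem wda1 (x : ℝ) : HasDerivAt (deriv a) (deriv (deriv a) x) x :=
  ((contDiff_infty_iff_deriv.mp h.smooth₁).2.differentiable (by norm_num) x).hasDerivAt

include h in
theorem wdb1 (x : ℝ) : HasDerivAt (deriv b) (deriv (deriv b) x) x :=
  ((contDiff_infty_iff_deriv.mp h.smooth₂).2.differentiable (by norm_num) x).hasDerivAt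

include h in
theorem tp_dx (x s : ℝ) : HasDerivAt (fun x => tp a b x s)
    (deriv a x + s * deriv (deriv a) x, deriv b x + s * deriv (deriv b) x) x :=
  ((wda h x).add ((wda1 h x).const_mul s)).prodMk ((wdb h x).add ((wdb1 h x).const_mul s))

theorem tp_ds (a b : ℝ → ℝ) (x s : ℝ) : HasDerivAt (fun s => tp a b x s)
    (deriv a x, deriv b x) s := by
  have h1 : HasDerivAt (fun s : ℝ => a x + s * deriv a x) (deriv a x) s := by
    simpa using ((hasDerivAt_id s).mul_const (deriv a x)).const_add (a x)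
  have h2 : HasDerivAt (fun s : ℝ => b x + s * deriv b x) (deriv b x) s := by
    simpa using ((hasDerivAt_id s).mul_const (deriv b x)).const_add (b x)
  exact h1.prodMk h2

include hΦ hE hinv in
theorem lab_sym {x s : ℝ} (hs : 0 < s) : ∃ p q, Φ p = tp a b x s ∧ Φ q = tp a b x (-s) ∧
    rlab Φ (tp a b x s) = rlab Φ (tp a b x (-s)) := by
  have h1 : tp a b x s ∈ Set.range Φ := by
    rw [hΦ.range]
    exact hE ⟨x, s, hs, rfl⟩
  obtain ⟨⟨r, t⟩, hp⟩ := h1
  obtain ⟨t', ht'⟩ := (hinv r x s hs).mpr ⟨t, hp.symm⟩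
  exact ⟨(r, t), (r, t'), hp, ht'.symm, by rw [rlab_eq hΦ hp, rlab_eq hΦ ht'.symm]⟩

include h hΦ hE hinv in
/-- the label of the leaves is constant along the tangent at a point of zero curvature -/
theorem flat_zero {x : ℝ}
    (hk : deriv a x * deriv (deriv b) x - deriv b x * deriv (deriv a) x = 0) {s : ℝ}
    (hs : 0 < s) : HasDerivAt (fun s => rlab Φ (tp a b x s)) 0 s := by
  obtain ⟨p, q, hp, hq, -⟩ := lab_sym hΦ hE hinv (x := x) hs
  have hL := (rlab_diff hΦ p).hasFDerivAt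
  have hM := (rlab_diff hΦ q).hasFDerivAt
  rw [hp] at hL
  rw [hq] at hM
  set L := fderiv ℝ (rlab Φ) (tp a b x s)
  set M := fderiv ℝ (rlab Φ) (tp a b x (-s))
  -- `s` derivatives
  have s1 : HasDerivAt (fun s => rlab Φ (tp a b x s)) (L (deriv a x, deriv b x)) s :=
    hL.comp_hasDerivAt s (tp_ds a b x s)
  have s2 : HasDerivAt (fun s => rlab Φ (tp a b x (-s))) (M (-(deriv a x, deriv b x))) s := by
    have h1 : HasDerivAt (fun s : ℝ => tp a b x (-s)) (-(deriv a x, deriv b x)) s := by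
      have h2 := (tp_ds a b x (-s)).scomp s (hasDerivAt_neg s)
      have h3 : (-1 : ℝ) • (deriv a x, deriv b x) = -(deriv a x, deriv b x) := by
        rw [neg_one_smul]
      rw [h3] at h2
      exact h2
    exact hM.comp_hasDerivAt s h1
  have s3 : (fun s => rlab Φ (tp a b x s)) =ᶠ[𝓝 s] fun s => rlab Φ (tp a b x (-s)) := by
    filter_upwards [lt_mem_nhds hs] with u hu
    obtain ⟨-, -, -, -, h5⟩ := lab_sym hΦ hE hinv (x := x) hu
    exact h5
  have e1 : L (deriv a x, deriv b x) = M (-(deriv a x, deriv b x)) :=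
    (s2.congr_of_eventuallyEq s3).unique s1 |>.symm
  -- `x` derivatives
  have x1 : HasDerivAt (fun x => rlab Φ (tp a b x s))
      (L (deriv a x + s * deriv (deriv a) x, deriv b x + s * deriv (deriv b) x)) x :=
    HasFDerivAt.comp_hasDerivAt (l := rlab Φ) (f := fun x => tp a b x s) x hL (tp_dx h x s)
  have x2 : HasDerivAt (fun x => rlab Φ (tp a b x (-s)))
      (M (deriv a x + -s * deriv (deriv a) x, deriv b x + -s * deriv (deriv b) x)) x :=
    HasFDerivAt.comp_hasDerivAt (l := rlab Φ) (f := fun x => tp a b x (-s)) x hM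
      (tp_dx h x (-s))
  have x3 : (fun x => rlab Φ (tp a b x s)) = fun x => rlab Φ (tp a b x (-s)) := by
    funext u
    obtain ⟨-, -, -, -, h5⟩ := lab_sym hΦ hE hinv (x := u) hs
    exact h5
  rw [x3] at x1
  have e2 := x1.unique x2
  -- `T' = μ T`
  set n : ℝ := deriv a x ^ 2 + deriv b x ^ 2 with hn
  have hn0 : n ≠ 0 := by
    rcases h.regular x with h1 | h1
    · positivity
    · positivity
  set μ : ℝ := (deriv a x * deriv (deriv a) x + deriv b x * deriv (deriv b) x) / n with hμ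
  have ma : deriv (deriv a) x = μ * deriv a x := by
    rw [hμ]
    field_simp
    rw [hn]
    linear_combination (-deriv b x) * hk
  have mb : deriv (deriv b) x = μ * deriv b x := by
    rw [hμ]
    field_simp
    rw [hn]
    linear_combination (deriv a x) * hk
  have v1 : (deriv a x + s * deriv (deriv a) x, deriv b x + s * deriv (deriv b) x) =
      (1 + s * μ) • (deriv a x, deriv b x) := by
    rw [ma, mb]
    refine Prod.ext ?_ ?_
    · simp only [Prod.smul_fst, smul_eq_mul]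
      ring
    · simp only [Prod.smul_snd, smul_eq_mul]
      ring
  have v2 : (deriv a x + -s * deriv (deriv a) x, deriv b x + -s * deriv (deriv b) x) =
      (1 - s * μ) • (deriv a x, deriv b x) := by
    rw [ma, mb]
    refine Prod.ext ?_ ?_
    · simp only [Prod.smul_fst, smul_eq_mul]
      ring
    · simp only [Prod.smul_snd, smul_eq_mul]
      ring
  rw [v1, v2, map_smul, map_smul, smul_eq_mul, smul_eq_mul] at e2
  rw [map_neg] at e1
  have e3 : L (deriv a x, deriv b x) = 0 := by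
    have h1 : M (deriv a x, deriv b x) = -L (deriv a x, deriv b x) := by linarith
    rw [h1] at e2
    linarith
  rw [e3] at s1
  exact s1

include h hΦ hE hinv in
theorem curv_ne (x : ℝ) :
    deriv a x * deriv (deriv b) x - deriv b x * deriv (deriv a) x ≠ 0 := by
  intro hk
  have hd : ∀ s, 0 < s → HasDerivAt (fun s => rlab Φ (tp a b x s)) 0 s := fun s hs =>
    flat_zero h hΦ hE hinv hk hs
  have hconst : ∀ s, 0 < s → rlab Φ (tp a b x s) = rlab Φ (tp a b x 1) := by
    intro s hs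
    have h1 := isOpen_Ioi.is_const_of_deriv_eq_zero (s := Ioi (0 : ℝ)) isPreconnected_Ioi
      (f := fun s => rlab Φ (tp a b x s))
      (fun u hu => (hd u hu).differentiableAt.differentiableWithinAt)
      (fun u hu => (hd u hu).deriv) (show s ∈ Ioi (0 : ℝ) from hs)
      (mem_Ioi.mpr (by norm_num : (0 : ℝ) < 1))
    exact h1
  set r₀ := rlab Φ (tp a b x 1) with hr₀
  have hc : Continuous fun t : ℝ => Φ (r₀, t) :=
    hΦ.smooth.continuous.comp (continuous_const.prodMk continuous_id)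
  obtain ⟨M, hM⟩ := (isCompact_Icc (a := (0 : ℝ)) (b := 1)).exists_bound_of_continuousOn
    hc.continuousOn
  have hbd : ∀ t, ‖Φ (r₀, t)‖ ≤ M := by
    intro t
    have h1 : Φ (r₀, t) = Φ (r₀, Int.fract t) := by
      have h2 := per_int' hΦ r₀ (Int.fract t) ⌊t⌋
      rw [Int.fract_add_floor] at h2
      exact h2
    rw [h1]
    exact hM _ ⟨Int.fract_nonneg t, (Int.fract_lt_one t).le⟩
  have hray : ∀ s, 0 < s → ‖tp a b x s‖ ≤ M := by
    intro s hs
    obtain ⟨p, -, hp, -, -⟩ := lab_sym hΦ hE hinv (x := x) hs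
    have h1 : p.1 = r₀ := by
      rw [← hconst s hs, rlab_eq hΦ hp]
    rw [← hp]
    have h2 : p = (r₀, p.2) := Prod.ext h1 rfl
    rw [h2]
    exact hbd _
  have hT : (deriv a x, deriv b x) ≠ (0 : ℝ × ℝ) := by
    intro h0
    rcases h.regular x with h1 | h1
    · exact h1 (congrArg Prod.fst h0)
    · exact h1 (congrArg Prod.snd h0)
  have hT' : 0 < ‖(deriv a x, deriv b x)‖ := norm_pos_iff.mpr hT
  set S := (|M| + ‖(a x, b x)‖ + 1) / ‖(deriv a x, deriv b x)‖ with hS
  have hSp : 0 < S := by positivity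
  have h1 := hray S hSp
  have h2 : S • (deriv a x, deriv b x) = tp a b x S - (a x, b x) := by
    unfold tp
    refine Prod.ext ?_ ?_
    · simp
    · simp
  have h3 : S * ‖(deriv a x, deriv b x)‖ ≤ ‖tp a b x S‖ + ‖(a x, b x)‖ := by
    have h4 : ‖S • (deriv a x, deriv b x)‖ = S * ‖(deriv a x, deriv b x)‖ := by
      rw [norm_smul, Real.norm_eq_abs, abs_of_pos hSp]
    rw [← h4, h2]
    exact norm_sub_le _ _
  rw [hS, div_mul_cancel₀ _ hT'.ne'] at h3
  linarith [le_abs_self M]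

include h hΦ hE hinv in
theorem curv_pos (x : ℝ) :
    0 < deriv a x * deriv (deriv b) x - deriv b x * deriv (deriv a) x := by
  set κ : ℝ → ℝ := fun x => deriv a x * deriv (deriv b) x - deriv b x * deriv (deriv a) x with hκ
  have hne : ∀ x, κ x ≠ 0 := fun x => curv_ne h hΦ hE hinv x
  have hκc : Continuous κ := by
    have c1 := (contDiff_infty_iff_deriv.mp h.smooth₁).2
    have c2 := (contDiff_infty_iff_deriv.mp h.smooth₂).2
    have c3 := (contDiff_infty_iff_deriv.mp c1).2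
    have c4 := (contDiff_infty_iff_deriv.mp c2).2
    exact (c1.continuous.mul c4.continuous).sub (c2.continuous.mul c3.continuous)
  by_contra hcon
  have hx : κ x < 0 := lt_of_le_of_ne (not_lt.mp hcon) (hne x)
  set m' : ℝ → ℝ := fun y => deriv a x * deriv b y - deriv b x * deriv a y with hm'
  set m : ℝ → ℝ := fun y => deriv a x * (b y - b x) - deriv b x * (a y - a x) with hm
  have d1 : ∀ y, HasDerivAt m (m' y) y := fun y =>
    (((wdb h y).sub_const (b x)).const_mul _).sub (((wda h y).sub_const (a x)).const_mul _)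
  have d2 : HasDerivAt (fun y => -m' y) (-κ x) x :=
    (((wdb1 h x).const_mul _).sub ((wda1 h x).const_mul _)).neg
  obtain ⟨⟨ε, hε, hε'⟩, -⟩ := slope_pos d2 (by linarith) (by simp only [hm']; ring)
  set δ := min (ε / 2) π with hδ
  have hδp : 0 < δ := lt_min (by linarith) Real.pi_pos
  have hδ1 : δ ≤ ε / 2 := min_le_left _ _
  have hδ2 : δ ≤ π := min_le_right _ _
  have hanti : StrictAntiOn m (Icc x (x + δ)) := by
    apply strictAntiOn_of_deriv_neg (convex_Icc _ _)
    · exact fun y _ => (d1 y).continuousAt.continuousWithinAt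
    · intro y hy
      rw [interior_Icc] at hy
      rw [(d1 y).deriv]
      have := hε' y hy.1 (by linarith [hy.2])
      linarith
  have h1 := hanti ⟨le_rfl, by linarith⟩ ⟨by linarith, le_rfl⟩ (show x < x + δ by linarith)
  have h2 : m x = 0 := by
    simp only [hm]
    ring
  have h3 := h.convex x (x + δ) (by linarith) (by linarith [Real.pi_pos])
  have h4 : 0 < m (x + δ) := h3
  linarith

include h hΦ hE hinv in
theorem strong : Pool.Agent.Results.MP_ae5b4e_an.WholeExteriorRigidity.ConvexCurve a b :=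
  ⟨h.smooth₁, h.smooth₂, h.per₁, h.per₂, curv_pos h hΦ hE hinv, h.convex⟩

end Pool.Agent.Run7.h235.OB
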