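import Pool.Agent.Run7.h235.OB.Lift

/-!
# MP_7a9089_an: the exterior is the complement of the convex domain bounded by the curve
-/

set_option autoImplicit false

open Filter Topology Set Real
open scoped ContDiff

namespace Pool.Agent.Run7.h235.OB

open Pool.Agent.Run7.h235.AE

/-- the points strictly on the right of some tangent line -/
def Out (a b : ℝ → ℝ) : Set (ℝ × ℝ) :=
  {z | ∃ x, deriv a x * (z.2 - b x) - deriv b x * (z.1 - a x) < 0}

variable {a b : ℝ → ℝ} (h : WCurve a b)
include h

theorem wpda (x : ℝ) : deriv a (x + 2 * π) = deriv a x := by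
  have h0 : HasDerivAt (fun x : ℝ => x + 2 * π) 1 x := (hasDerivAt_id x).add_const _
  have h1 : HasDerivAt (fun x => a (x + 2 * π)) (deriv a (x + 2 * π) * 1) x :=
    (wda h (x + 2 * π)).comp x h0
  have h2 : (fun x => a (x + 2 * π)) = a := funext h.per₁
  rw [h2, mul_one] at h1
  exact h1.unique (wda h x)

theorem wpdb (x : ℝ) : deriv b (x + 2 * π) = deriv b x := by
  have h0 : HasDerivAt (fun x : ℝ => x + 2 * π) 1 x := (hasDerivAt_id x).add_const _
  have h1 : HasDerivAt (fun x => b (x + 2 * π)) (deriv b (x + 2 * π) * 1) x :=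
    (wdb h (x + 2 * π)).comp x h0
  have h2 : (fun x => b (x + 2 * π)) = b := funext h.per₂
  rw [h2, mul_one] at h1
  exact h1.unique (wdb h x)

theorem Ext_sub_Out : Ext a b ⊆ Out a b := by
  rintro z ⟨x, s, hs, rfl⟩
  set n : ℝ := deriv a x ^ 2 + deriv b x ^ 2 with hn
  have hn0 : 0 < n := by
    rcases h.regular x with h1 | h1
    · positivity
    · positivity
  set c : ℝ → ℝ := fun y => (a y - a x) * deriv a x + (b y - b x) * deriv b x with hc
  have hcd : HasDerivAt c n x := by
    have h1 := (((wda h x).sub_const (a x)).mul_const (deriv a x)).add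
      (((wdb h x).sub_const (b x)).mul_const (deriv b x))
    exact h1.congr_deriv (by rw [hn]; ring)
  obtain ⟨⟨ε, hε, hε'⟩, -⟩ := slope_pos hcd hn0 (by simp only [hc]; ring)
  have e1 : ∀ᶠ y in 𝓝 x, c y < s * n := by
    apply hcd.continuousAt.eventually_lt_const
    simp only [hc, sub_self, zero_mul, add_zero]
    positivity
  have e2 : ∀ᶠ y in 𝓝 x, 0 < deriv a y * deriv a x + deriv b y * deriv b x := by
    have h1 : ContinuousAt (fun y => deriv a y * deriv a x + deriv b y * deriv b x) x :=
      ((wda1 h x).continuousAt.mul continuousAt_const).add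
        ((wdb1 h x).continuousAt.mul continuousAt_const)
    apply h1.eventually_const_lt
    nlinarith
  have e3 : ∀ᶠ y in 𝓝[>] x, y ∈ Ioo x (x + min ε π) :=
    Ioo_mem_nhdsGT (by linarith [lt_min hε Real.pi_pos])
  obtain ⟨y, ⟨⟨hy1, hy2⟩, hy3⟩, hy4⟩ :=
    ((e3.and (nhdsWithin_le_nhds e1)).and (nhdsWithin_le_nhds e2)).exists
  have m1 := min_le_left ε π
  have m2 := min_le_right ε π
  have hcy : 0 < c y := hε' y hy1 (by linarith)
  have hM := h.convex x y hy1 (by linarith [Real.pi_pos])
  have hN := h.convex y (x + 2 * π) (by linarith [Real.pi_pos]) (by linarith)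
  rw [h.per₁, h.per₂] at hN
  refine ⟨y, ?_⟩
  unfold tp
  simp only
  -- `N |T x|² + M (T y · T x) = W c`
  have key : (deriv a y * (b x - b y) - deriv b y * (a x - a y)) * n +
      (deriv a x * (b y - b x) - deriv b x * (a y - a x)) *
        (deriv a y * deriv a x + deriv b y * deriv b x) =
      (deriv a x * deriv b y - deriv b x * deriv a y) * c y := by
    rw [hn, hc]
    ring
  have hMp := mul_pos hM hy4
  have hNp := mul_pos hN hn0
  have hW : 0 < deriv a x * deriv b y - deriv b x * deriv a y := by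
    have h1 : 0 < (deriv a x * deriv b y - deriv b x * deriv a y) * c y := by
      rw [← key]
      linarith
    exact (mul_pos_iff_of_pos_right hcy).mp h1
  have h2 : (deriv a y * (b x - b y) - deriv b y * (a x - a y)) * n <
      (deriv a x * deriv b y - deriv b x * deriv a y) * (s * n) := by
    have h3 : (deriv a x * deriv b y - deriv b x * deriv a y) * c y <
        (deriv a x * deriv b y - deriv b x * deriv a y) * (s * n) :=
      mul_lt_mul_of_pos_left hy3 hW
    linarith
  have h3 : (deriv a y * (b x - b y) - deriv b y * (a x - a y)) <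
      (deriv a x * deriv b y - deriv b x * deriv a y) * s := by
    have h4 : (deriv a y * (b x - b y) - deriv b y * (a x - a y)) * n <
        (deriv a x * deriv b y - deriv b x * deriv a y) * s * n := by linarith
    exact lt_of_mul_lt_mul_right h4 hn0.le
  linarith

/-- no point lies strictly on the right of all tangent lines -/
theorem exists_left (z : ℝ × ℝ) :
    ∃ y, 0 ≤ deriv a y * (z.2 - b y) - deriv b y * (z.1 - a y) := by
  by_contra hcon
  push Not at hcon
  -- the extrema of a linear function on the curve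
  have hbc : Continuous b := h.smooth₂.continuous
  have hper : Function.Periodic b (2 * π) := h.per₂
  have hπ : (0 : ℝ) < 2 * π := by positivity
  obtain ⟨y1, -, hy1⟩ := (isCompact_Icc (a := (0 : ℝ)) (b := 2 * π)).exists_isMaxOn
    ⟨0, ⟨le_rfl, hπ.le⟩⟩ hbc.continuousOn
  obtain ⟨y2, -, hy2⟩ := (isCompact_Icc (a := (0 : ℝ)) (b := 2 * π)).exists_isMinOn
    ⟨0, ⟨le_rfl, hπ.le⟩⟩ hbc.continuousOn
  have g1 : ∀ y, b y ≤ b y1 := by
    intro y
    obtain ⟨u, hu, hu'⟩ := hper.exists_mem_Ico₀ hπ y
    rw [hu']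
    exact hy1 ⟨hu.1, hu.2.le⟩
  have g2 : ∀ y, b y2 ≤ b y := by
    intro y
    obtain ⟨u, hu, hu'⟩ := hper.exists_mem_Ico₀ hπ y
    rw [hu']
    exact hy2 ⟨hu.1, hu.2.le⟩
  have d1 : deriv b y1 = 0 := by
    have h1 : IsLocalMax b y1 := Filter.Eventually.of_forall g1
    exact h1.deriv_eq_zero
  have d2 : deriv b y2 = 0 := by
    have h1 : IsLocalMin b y2 := Filter.Eventually.of_forall g2
    exact h1.deriv_eq_zero
  have c1 := h.convex y1 (y1 + π) (by linarith [Real.pi_pos]) (by linarith [Real.pi_pos])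
  have c2 := h.convex y2 (y2 + π) (by linarith [Real.pi_pos]) (by linarith [Real.pi_pos])
  have k1 := hcon y1
  have k2 := hcon y2
  rw [d1, zero_mul, sub_zero] at c1 k1
  rw [d2, zero_mul, sub_zero] at c2 k2
  have l1 := g1 (y1 + π)
  have l2 := g2 (y2 + π)
  have s1 : deriv a y1 < 0 := by
    by_contra hc
    push Not at hc
    have := mul_nonneg hc (show 0 ≤ b y1 - b (y1 + π) by linarith)
    linarith
  have s2 : 0 < deriv a y2 := by
    by_contra hc
    push Not at hc
    have := mul_nonneg (show 0 ≤ -deriv a y2 by linarith) (show 0 ≤ b (y2 + π) - b y2 by linarith)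
    linarith
  have t1 : b y1 < z.2 := by
    by_contra hc
    push Not at hc
    have := mul_nonneg (show 0 ≤ -deriv a y1 by linarith) (show 0 ≤ b y1 - z.2 by linarith)
    linarith
  have t2 : z.2 < b y2 := by
    by_contra hc
    push Not at hc
    have := mul_nonneg s2.le (show 0 ≤ z.2 - b y2 by linarith)
    linarith
  linarith [g1 y2]

theorem Out_sub_Ext
    (hκ : ∀ x, 0 < deriv a x * deriv (deriv b) x - deriv b x * deriv (deriv a) x) :
    Out a b ⊆ Ext a b := by
  rintro z ⟨y₀, hy₀⟩
  obtain ⟨y1, hy1⟩ := exists_left h z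
  set m : ℝ → ℝ := fun y => deriv a y * (z.2 - b y) - deriv b y * (z.1 - a y) with hm
  have hπ : (0 : ℝ) < 2 * π := by positivity
  have hmper : Function.Periodic m (2 * π) := by
    intro y
    simp only [hm, wpda h, wpdb h, h.per₁, h.per₂]
  obtain ⟨y2, hy2, hy2'⟩ := hmper.exists_mem_Ioc hπ y₀ y1
  have hm2 : m y2 < 0 := by
    rw [← hy2']
    exact hy₀
  have hmd : ∀ y, HasDerivAt m (deriv (deriv a) y * (z.2 - b y) -
      deriv (deriv b) y * (z.1 - a y)) y := by
    intro y
    have h1 := ((wda1 h y).mul ((wdb h y).const_sub z.2)).sub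
      ((wdb1 h y).mul ((wda h y).const_sub z.1))
    exact h1.congr_deriv (by ring)
  have hmc : Continuous m := continuous_iff_continuousAt.mpr fun y => (hmd y).continuousAt
  set S : Set ℝ := {u | u ∈ Icc y1 y2 ∧ 0 ≤ m u} with hS
  have hSc : IsCompact S := isCompact_Icc.inter_right (isClosed_le continuous_const hmc)
  have hSn : S.Nonempty := ⟨y1, ⟨le_rfl, hy2.1.le⟩, hy1⟩
  have hmem := hSc.sSup_mem hSn
  set x := sSup S with hx
  have hxle : ∀ u ∈ S, u ≤ x := fun u hu => le_csSup hSc.bddAbove hu
  have hx2 : x < y2 := by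
    rcases eq_or_lt_of_le hmem.1.2 with h1 | h1
    · exfalso
      have := hmem.2
      rw [h1] at this
      linarith
    · exact h1
  have hneg : ∀ u, x < u → u ≤ y2 → m u < 0 := by
    intro u h1 h2
    by_contra hc
    push Not at hc
    have := hxle u ⟨⟨by linarith [hmem.1.1], h2⟩, hc⟩
    linarith
  have hmx : m x = 0 := by
    refine le_antisymm ?_ hmem.2
    have h1 : Tendsto m (𝓝[>] x) (𝓝 (m x)) := (hmc.tendsto x).mono_left nhdsWithin_le_nhds
    refine le_of_tendsto h1 ?_
    filter_upwards [Ioo_mem_nhdsGT hx2] with u hu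
    exact (hneg u hu.1 hu.2.le).le
  -- `z = P x + s T x`
  set n : ℝ := deriv a x ^ 2 + deriv b x ^ 2 with hn
  have hn0 : n ≠ 0 := by
    rcases h.regular x with h1 | h1
    · positivity
    · positivity
  set s : ℝ := (deriv a x * (z.1 - a x) + deriv b x * (z.2 - b x)) / n with hs
  have hmx' : deriv a x * (z.2 - b x) - deriv b x * (z.1 - a x) = 0 := hmx
  have z1 : z.1 - a x = s * deriv a x := by
    rw [hs]
    field_simp
    rw [hn]
    linear_combination (-deriv b x) * hmx'
  have z2 : z.2 - b x = s * deriv b x := by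
    rw [hs]
    field_simp
    rw [hn]
    linear_combination (deriv a x) * hmx'
  have hz : z = tp a b x s := by
    unfold tp
    refine Prod.ext ?_ ?_
    · simp only
      linarith
    · simp only
      linarith
  refine ⟨x, s, ?_, hz⟩
  by_contra hcon
  push Not at hcon
  rcases eq_or_lt_of_le hcon with h1 | h1
  · -- `z` is a point of the curve
    rw [h1, zero_mul] at z1 z2
    obtain ⟨v, hv, hv'⟩ := (show Function.Periodic (fun y => (a y, b y)) (2 * π) from fun y => by
      simp only [h.per₁, h.per₂]).exists_mem_Ico hπ x y2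
    have v1 : a x = a v := congrArg Prod.fst hv'
    have v2 : b x = b v := congrArg Prod.snd hv'
    have w1 : z.1 = a v := by linarith
    have w2 : z.2 = b v := by linarith
    have hm2' : deriv a y2 * (z.2 - b y2) - deriv b y2 * (z.1 - a y2) < 0 := hm2
    rw [w1, w2] at hm2'
    rcases eq_or_lt_of_le hv.1 with h2 | h2
    · rw [← h2] at hm2'
      simp at hm2'
    · have := h.convex y2 v h2 hv.2
      linarith
  · -- the sign of the derivative
    have hd := hmd x
    rw [z1, z2] at hd
    have e : deriv (deriv a) x * (s * deriv b x) - deriv (deriv b) x * (s * deriv a x) =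
        -s * (deriv a x * deriv (deriv b) x - deriv b x * deriv (deriv a) x) := by ring
    rw [e] at hd
    obtain ⟨⟨ε, hε, hε'⟩, -⟩ := slope_pos hd (mul_pos (by linarith) (hκ x)) hmx
    set u := x + min (ε / 2) (y2 - x) with hu
    have q1 : 0 < min (ε / 2) (y2 - x) := lt_min (by linarith) (by linarith)
    have q2 := min_le_left (ε / 2) (y2 - x)
    have q3 := min_le_right (ε / 2) (y2 - x)
    have q4 := hε' u (by linarith) (by linarith)
    have q5 := hneg u (by linarith) (by linarith)
    linarith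

/-- **Main theorem** for foliations of the plane. -/
theorem plane_ellipse {Φ : ℝ × ℝ → ℝ × ℝ} (hΦ : PFol (Out a b) Φ)
    (hinv : ∀ r x s, 0 < s → ((∃ t, tp a b x (-s) = Φ (r, t)) ↔ ∃ t, tp a b x s = Φ (r, t))) :
    ∃ x₀ y₀ A B C : ℝ, 0 < A ∧ B ^ 2 < A * C ∧
      ∀ q : ℝ × ℝ, qd x₀ y₀ A B C q = 1 ↔ ∃ x, q = (a x, b x) := by
  have hE := Ext_sub_Out h
  have hκ := curv_pos h hΦ hE hinv
  have hc := strong h hΦ hE hinv
  have hEE : Out a b = Ext a b := Subset.antisymm (Out_sub_Ext h hκ) hE
  rw [hEE] at hΦ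
  obtain ⟨Θ, hΘ, hleaf⟩ := chart_exists hc hΦ
  apply chart_ellipse hc hΘ
  intro r y s hs
  rw [hleaf, hleaf]
  exact hinv r y s hs

end Pool.Agent.Run7.h235.OB
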