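import Pool.Agent.Run7.h235.OB.Chart

/-!
# MP_7a9089_an: foliations by invariant graphs force an ellipse
-/

set_option autoImplicit false

open Filter Topology Set Real
open scoped ContDiff

namespace Pool.Agent.Run7.h235.OB

open Pool.Agent.Run7.h235.AE
open Pool.Agent.Results.MP_ae5b4e_an.WholeExteriorRigidity

/-- a foliation of the exterior by closed graphs, in the coordinates `(x, s)`: the leaf `r` is the
graph `s = σ r x` -/
structure Graphs (σ : ℝ → ℝ → ℝ) : Prop where
  cont : ∀ r, Continuous (σ r)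
  per : ∀ r x, σ r (x + 2 * π) = σ r x
  pos : ∀ r x, 0 < σ r x
  bij : ∀ x s, 0 < s → ∃! r, σ r x = s

theorem Graphs.inj {σ : ℝ → ℝ → ℝ} (hσ : Graphs σ) {r r' x : ℝ} (he : σ r x = σ r' x) :
    r = r' := by
  obtain ⟨z, -, hz⟩ := hσ.bij x (σ r' x) (hσ.pos r' x)
  rw [hz r he, hz r' rfl]

theorem Graphs.order {σ : ℝ → ℝ → ℝ} (hσ : Graphs σ) {r r' x : ℝ} (he : σ r x < σ r' x) (y : ℝ) :
    σ r y < σ r' y := by
  by_contra hcon
  push Not at hcon
  have hc : Continuous fun z => σ r z - σ r' z := (hσ.cont r).sub (hσ.cont r')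
  have h1 := isPreconnected_univ.intermediate_value (mem_univ x) (mem_univ y) hc.continuousOn
  obtain ⟨z, -, hz⟩ := h1 (show (0 : ℝ) ∈ Icc (σ r x - σ r' x) (σ r y - σ r' y) from
    ⟨by linarith, by linarith⟩)
  have h2 : σ r z = σ r' z := by
    have : σ r z - σ r' z = 0 := hz
    linarith
  have h3 := hσ.inj h2
  rw [h3] at he
  exact lt_irrefl _ he

theorem Graphs.per_int {σ : ℝ → ℝ → ℝ} (hσ : Graphs σ) (r x : ℝ) (k : ℤ) :
    σ r (x + k * (2 * π)) = σ r x := by
  have h1 : Function.Periodic (σ r) (2 * π) := hσ.per r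
  exact (h1.int_mul k) x

/-- the leaf -/
def gleaf (a b : ℝ → ℝ) (σ : ℝ → ℝ → ℝ) (r : ℝ) : Set (ℝ × ℝ) := {z | ∃ x, z = tp a b x (σ r x)}

variable {a b : ℝ → ℝ} (h : ConvexCurve a b) {σ : ℝ → ℝ → ℝ} (hσ : Graphs σ)
  (hinv : ∀ r y s, 0 < s → (tp a b y (-s) ∈ gleaf a b σ r ↔ tp a b y s ∈ gleaf a b σ r))

include h in
theorem not_curve {x y s : ℝ} (hs : 0 < s) : tp a b x s ≠ (a y, b y) := by
  intro h0
  have hper : Function.Periodic (fun y => (a y, b y)) (2 * π) := by
    intro y
    simp only [h.per₁, h.per₂]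
  obtain ⟨z, hz, hyz⟩ := hper.exists_mem_Ico (by positivity) y x
  rw [hyz] at h0
  unfold tp at h0
  have h1 : a x + s * deriv a x = a z := congrArg Prod.fst h0
  have h2 : b x + s * deriv b x = b z := congrArg Prod.snd h0
  rcases eq_or_lt_of_le hz.1 with h3 | h3
  · subst h3
    have e1 : s * deriv a x = 0 := by linarith
    have e2 : s * deriv b x = 0 := by linarith
    rcases tne h x with h4 | h4
    · exact h4 ((mul_eq_zero.mp e1).resolve_left hs.ne')
    · exact h4 ((mul_eq_zero.mp e2).resolve_left hs.ne')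
  · have h4 := h.convex x z h3 hz.2
    rw [← h1, ← h2] at h4
    have : deriv a x * (b x + s * deriv b x - b x) - deriv b x * (a x + s * deriv a x - a x) =
        0 := by ring
    linarith

include h hσ in
theorem gleaf_iff {x s r : ℝ} (hs : 0 < s) : tp a b x s ∈ gleaf a b σ r ↔ σ r x = s := by
  constructor
  · rintro ⟨y, hy⟩
    obtain ⟨k, hk1, hk2⟩ := tp_inj h hs (hσ.pos r y) hy
    rw [← hk2, hk1, hσ.per_int]
  · intro h1
    exact ⟨x, by rw [h1]⟩

open Classical in
/-- the label of the leaf through a point -/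
noncomputable def lab (a b : ℝ → ℝ) (σ : ℝ → ℝ → ℝ) (z : ℝ × ℝ) : ℝ :=
  if hz : ∃ r, z ∈ gleaf a b σ r then σ hz.choose 0 else 0

include h hσ in
theorem gleaf_unique {z : ℝ × ℝ} {r r' : ℝ} (h1 : z ∈ gleaf a b σ r) (h2 : z ∈ gleaf a b σ r') :
    r = r' := by
  obtain ⟨x, hx⟩ := h1
  rw [hx, gleaf_iff h hσ (hσ.pos r x)] at h2
  exact hσ.inj h2.symm

include h hσ in
theorem lab_eq {z : ℝ × ℝ} {r : ℝ} (hz : z ∈ gleaf a b σ r) : lab a b σ z = σ r 0 := by
  have h1 : ∃ r, z ∈ gleaf a b σ r := ⟨r, hz⟩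
  unfold lab
  rw [dif_pos h1, gleaf_unique h hσ h1.choose_spec hz]

include h hσ hinv in
theorem good_lab (x : ℝ) : Good fun s => lab a b σ (tp a b x s) := by
  -- values on the forward tangent
  have hR : ∀ s, 0 < s → ∃ r, σ r x = s := fun s hs => (hσ.bij x s hs).exists
  choose! R hR' using hR
  set k : ℝ → ℝ := fun s => lab a b σ (tp a b x s) with hk
  have kpos : ∀ s, 0 < s → k s = σ (R s) 0 := by
    intro s hs
    exact lab_eq h hσ ((gleaf_iff h hσ hs).mpr (hR' s hs))
  have kneg : ∀ s, 0 < s → k (-s) = σ (R s) 0 := by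
    intro s hs
    exact lab_eq h hσ ((hinv (R s) x s hs).mpr ((gleaf_iff h hσ hs).mpr (hR' s hs)))
  have kzero : k 0 = 0 := by
    have h1 : ¬∃ r, tp a b x 0 ∈ gleaf a b σ r := by
      rintro ⟨r, y, hy⟩
      apply not_curve h (x := y) (y := x) (hσ.pos r y)
      rw [← hy]
      unfold tp
      simp
    show lab a b σ (tp a b x 0) = 0
    unfold lab
    rw [dif_neg h1]
  have keven : ∀ s, k (-s) = k s := by
    intro s
    rcases lt_trichotomy s 0 with hs | hs | hs
    · have h1 := kneg (-s) (by linarith)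
      have h2 := kpos (-s) (by linarith)
      rw [neg_neg] at h1
      rw [h1, h2]
    · rw [hs, neg_zero]
    · rw [kneg s hs, kpos s hs]
  have kp0 : ∀ s, 0 < s → 0 < k s := by
    intro s hs
    rw [kpos s hs]
    exact hσ.pos _ _
  have kmono : ∀ s s', 0 < s → s < s' → k s < k s' := by
    intro s s' hs hss
    rw [kpos s hs, kpos s' (hs.trans hss)]
    apply hσ.order (x := x)
    rw [hR' s hs, hR' s' (hs.trans hss)]
    exact hss
  have ksurj : ∀ c, 0 < c → ∃ s, 0 < s ∧ k s = c := by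
    intro c hc
    obtain ⟨r, hr, -⟩ := hσ.bij 0 c hc
    refine ⟨σ r x, hσ.pos r x, ?_⟩
    rw [kpos _ (hσ.pos r x), hσ.inj (hR' (σ r x) (hσ.pos r x)), hr]
  have kmonoOn : StrictMonoOn k (Ici 0) := by
    intro s hs s' _ hss
    rcases eq_or_lt_of_le (show 0 ≤ s from hs) with h1 | h1
    · rw [← h1, kzero]
      exact kp0 s' (by linarith)
    · exact kmono s s' h1 hss
  have kcont : Continuous k := by
    set g : ℝ → ℝ := fun s => if 0 ≤ s then k s else s with hg
    have hgm : StrictMono g := by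
      intro s s' hss
      simp only [hg]
      split_ifs with h1 h2 h2
      · exact kmonoOn h1 h2 hss
      · exact absurd (h1.trans hss.le) h2
      · have h3 : 0 ≤ k s' := by
          rcases eq_or_lt_of_le h2 with h4 | h4
          · rw [← h4, kzero]
          · exact (kp0 s' h4).le
        push Not at h1
        linarith
      · exact hss
    have hgs : Function.Surjective g := by
      intro c
      rcases lt_trichotomy c 0 with h1 | h1 | h1
      · refine ⟨c, ?_⟩
        simp only [hg]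
        rw [if_neg (by linarith)]
      · refine ⟨0, ?_⟩
        simp only [hg]
        rw [if_pos le_rfl, kzero, h1]
      · obtain ⟨s, hs, hs'⟩ := ksurj c h1
        refine ⟨s, ?_⟩
        simp only [hg]
        rw [if_pos hs.le, hs']
    have hgc : Continuous g := hgm.monotone.continuous_of_surjective hgs
    have e : k = fun s => g |s| := by
      funext s
      simp only [hg]
      rw [if_pos (abs_nonneg s)]
      rcases abs_cases s with h1 | h1
      · rw [h1.1]
      · rw [h1.1, keven]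
    rw [e]
    exact hgc.comp continuous_abs
  refine ⟨kcont, ?_, kzero, keven, kmonoOn⟩
  intro C
  obtain ⟨R₀, hR₀, hR₀'⟩ := ksurj (|C| + 1) (by positivity)
  refine ⟨R₀, fun s hs => ?_⟩
  have h1 : k s = k |s| := by
    rcases abs_cases s with h1 | h1
    · rw [h1.1]
    · rw [h1.1, keven]
  have h2 := kmono R₀ |s| hR₀ hs
  show C < k s
  rw [h1]
  linarith [le_abs_self C]

include h hσ hinv in
theorem graphs_ellipse : ∃ x₀ y₀ A B C : ℝ, 0 < A ∧ B ^ 2 < A * C ∧
    ∀ q : ℝ × ℝ, qd x₀ y₀ A B C q = 1 ↔ ∃ x, q = (a x, b x) := by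
  obtain ⟨x₀, y₀, A, B, C, h1, h2, h3, -⟩ := main h (good_lab h hσ hinv)
  exact ⟨x₀, y₀, A, B, C, h1, h2, h3⟩

/-- **Main theorem**, in the coordinates `(x, s)`. -/
theorem chart_ellipse {Θ : ℝ × ℝ → ℝ × ℝ} (h : ConvexCurve a b) (hΘ : Chart Θ)
    (hinv : ∀ r y s, 0 < s → (tp a b y (-s) ∈ leafset a b Θ r ↔ tp a b y s ∈ leafset a b Θ r)) :
    ∃ x₀ y₀ A B C : ℝ, 0 < A ∧ B ^ 2 < A * C ∧
      ∀ q : ℝ × ℝ, qd x₀ y₀ A B C q = 1 ↔ ∃ x, q = (a x, b x) := by
  have hm := leaf_mono h hΘ fun r y s hs h1 => (hinv r y s hs).mp h1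
  have hΘc : Continuous Θ := hΘ.smooth.continuous
  have hXc : ∀ r, Continuous fun t => (Θ (r, t)).1 := fun r =>
    (hΘc.comp (continuous_const.prodMk continuous_id)).fst
  have hXs : ∀ r, Function.Surjective fun t => (Θ (r, t)).1 := by
    intro r
    apply (hXc r).surjective
    · rw [tendsto_atTop]
      intro B
      obtain ⟨n, hn⟩ := exists_nat_gt ((B - (Θ (r, 0)).1) / (2 * π))
      rw [div_lt_iff₀ (by positivity)] at hn
      filter_upwards [eventually_ge_atTop (n : ℝ)] with t ht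
      have h1 := (hm r).monotone ht
      have h2 := hΘ.per_int r 0 n
      rw [zero_add] at h2
      push_cast at h2
      rw [h2] at h1
      simp only at h1
      linarith
    · rw [tendsto_atBot]
      intro B
      obtain ⟨n, hn⟩ := exists_nat_gt (((Θ (r, 0)).1 - B) / (2 * π))
      rw [div_lt_iff₀ (by positivity)] at hn
      filter_upwards [eventually_le_atBot (-(n : ℝ))] with t ht
      have h1 := (hm r).monotone ht
      have h2 := hΘ.per_int r 0 (-n)
      rw [zero_add] at h2
      push_cast at h2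
      rw [h2] at h1
      simp only at h1
      linarith
  set eq : ∀ r : ℝ, ℝ ≃o ℝ := fun r => (hm r).orderIsoOfSurjective _ (hXs r) with heq
  have hinv1 : ∀ r x, (Θ (r, (eq r).symm x)).1 = x := fun r x => (eq r).apply_symm_apply x
  have hinv2 : ∀ r t, (eq r).symm (Θ (r, t)).1 = t := fun r t => (eq r).symm_apply_apply t
  set σ : ℝ → ℝ → ℝ := fun r x => (Θ (r, (eq r).symm x)).2 with hσ
  have hσΘ : ∀ r x, Θ (r, (eq r).symm x) = (x, σ r x) := fun r x => Prod.ext (hinv1 r x) rfl
  have hper : ∀ r x, (eq r).symm (x + 2 * π) = (eq r).symm x + 1 := by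
    intro r x
    apply (hm r).injective
    show (Θ (r, _)).1 = (Θ (r, _)).1
    rw [hinv1, hΘ.per, hinv1]
  have hG : Graphs σ := by
    refine ⟨?_, ?_, ?_, ?_⟩
    · intro r
      exact (hΘc.comp (continuous_const.prodMk (eq r).symm.continuous)).snd
    · intro r x
      simp only [hσ]
      rw [hper, hΘ.per]
    · intro r x
      exact hΘ.pos _
    · intro x s hs
      obtain ⟨⟨r, t⟩, hp, hu⟩ := hΘ.bij x s hs
      have ht : (eq r).symm x = t := by
        have h1 := hinv2 r t
        rw [hp] at h1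
        exact h1
      refine ⟨r, ?_, ?_⟩
      · simp only [hσ]
        rw [ht, hp]
      · intro r' hr'
        have h1 := hσΘ r' x
        rw [hr'] at h1
        exact congrArg Prod.fst (hu _ h1)
  have hleaf : ∀ r, gleaf a b σ r = leafset a b Θ r := by
    intro r
    ext z
    constructor
    · rintro ⟨x, hx⟩
      refine ⟨(eq r).symm x, ?_⟩
      rw [hσΘ]
      exact hx
    · rintro ⟨t, ht⟩
      refine ⟨(Θ (r, t)).1, ?_⟩
      simp only [hσ]
      rw [hinv2]
      exact ht
  apply graphs_ellipse h hG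
  intro r y s hs
  rw [hleaf]
  exact hinv r y s hs

end Pool.Agent.Run7.h235.OB
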