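import Pool.Agent.Run7.h235.OB.Flat

/-!
# MP_7a9089_an: lifting a foliation of the plane to the tangential coordinates
-/

set_option autoImplicit false

open Filter Topology Set Real
open scoped ContDiff

namespace Pool.Agent.Run7.h235.OB

open Pool.Agent.Run7.h235.AE
open Pool.Agent.Results.MP_ae5b4e_an.WholeExteriorRigidity

theorem lift_circle {A : Type*} [TopologicalSpace A] [SimplyConnectedSpace A]
    [LocallyPathConnectedSpace A] {P : ℝ} (_hP : 0 < P) (X0 : A → ℝ)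
    (hc : ∀ p, ∃ G : A → ℝ, ContinuousAt G p ∧ ∀ᶠ q in 𝓝 p, ∃ k : ℤ, X0 q = G q + k * P) :
    ∃ X : A → ℝ, Continuous X ∧ ∀ p, ∃ k : ℤ, X0 p = X p + k * P := by
  set c : A → AddCircle P := fun p => (X0 p : AddCircle P) with hcdef
  have hcc : Continuous c := by
    rw [continuous_iff_continuousAt]
    intro p
    obtain ⟨G, hG, hG'⟩ := hc p
    have h1 : c =ᶠ[𝓝 p] fun q => (G q : AddCircle P) := by
      filter_upwards [hG'] with q hq
      obtain ⟨k, hk⟩ := hq
      simp only [hcdef]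
      rw [hk, ← sub_eq_zero, ← AddCircle.coe_sub, AddCircle.coe_eq_zero_iff]
      exact ⟨k, by rw [zsmul_eq_mul]; ring⟩
    have h2 : ContinuousAt (fun q => (G q : AddCircle P)) p :=
      (AddCircle.continuous_mk' P).continuousAt.comp hG
    exact h2.congr h1.symm
  have a₀ : A := Classical.choice inferInstance
  obtain ⟨F, ⟨-, hF⟩, -⟩ := (AddCircle.isCoveringMap_coe P).existsUnique_continuousMap_lifts
    ⟨c, hcc⟩ a₀ (X0 a₀) rfl
  refine ⟨F, F.continuous, fun p => ?_⟩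
  have h1 : ((F p : ℝ) : AddCircle P) = (X0 p : AddCircle P) := congrFun hF p
  have h2 : ((X0 p - F p : ℝ) : AddCircle P) = 0 := by
    rw [AddCircle.coe_sub, h1, sub_self]
  obtain ⟨k, hk⟩ := (AddCircle.coe_eq_zero_iff P).mp h2
  refine ⟨k, ?_⟩
  rw [zsmul_eq_mul] at hk
  linarith

theorem int_const {A : Type*} [TopologicalSpace A] [PreconnectedSpace A] {P : ℝ} (hP : 0 < P)
    {D : A → ℝ} (hD : Continuous D) (hk : ∀ p, ∃ k : ℤ, D p = k * P) (p q : A) : D p = D q := by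
  have key : ∀ p q, ¬D p < D q := by
    intro p q hlt
    obtain ⟨k1, hk1⟩ := hk p
    obtain ⟨k2, hk2⟩ := hk q
    have h1 : k1 < k2 := by
      rw [hk1, hk2] at hlt
      have := lt_of_mul_lt_mul_right hlt hP.le
      exact_mod_cast this
    have h2 : (k1 : ℝ) + 1 ≤ k2 := by exact_mod_cast h1
    have h3 := isPreconnected_univ.intermediate_value (mem_univ p) (mem_univ q) hD.continuousOn
    obtain ⟨z, -, hz⟩ := h3 (show ((k1 : ℝ) + 1 / 2) * P ∈ Icc (D p) (D q) from by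
      rw [hk1, hk2]
      constructor
      · nlinarith
      · nlinarith)
    obtain ⟨k3, hk3⟩ := hk z
    rw [hk3] at hz
    have h4 : (k3 : ℝ) = k1 + 1 / 2 := mul_right_cancel₀ hP.ne' hz
    have h5 : (2 * k3 : ℝ) = 2 * k1 + 1 := by linarith
    have h6 : 2 * k3 = 2 * k1 + 1 := by exact_mod_cast h5
    omega
  exact le_antisymm (not_lt.mp (key q p)) (not_lt.mp (key p q))

/-- tangential coordinates -/
noncomputable def tpp (a b : ℝ → ℝ) (q : ℝ × ℝ) : ℝ × ℝ := tp a b q.1 q.2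

variable {a b : ℝ → ℝ} (h : ConvexCurve a b)
include h

theorem tpp_smooth : ContDiff ℝ 1 (tpp a b) := by
  have ca : ContDiff ℝ 1 a := h.smooth₁.of_le (by exact_mod_cast le_top)
  have cb : ContDiff ℝ 1 b := h.smooth₂.of_le (by exact_mod_cast le_top)
  have ca1 : ContDiff ℝ 1 (deriv a) := (sa1 h).of_le (by exact_mod_cast le_top)
  have cb1 : ContDiff ℝ 1 (deriv b) := (sb1 h).of_le (by exact_mod_cast le_top)
  unfold tpp tp
  exact ((ca.comp contDiff_fst).add (contDiff_snd.mul (ca1.comp contDiff_fst))).prodMk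
    ((cb.comp contDiff_fst).add (contDiff_snd.mul (cb1.comp contDiff_fst)))

theorem tpp_reg {q : ℝ × ℝ} (hq : 0 < q.2) (v : ℝ × ℝ) (hv : fderiv ℝ (tpp a b) q v = 0) :
    v = 0 := by
  have hd : HasFDerivAt (tpp a b) (fderiv ℝ (tpp a b) q) q :=
    ((tpp_smooth h).differentiable (by norm_num) q).hasFDerivAt
  have l1 : HasDerivAt (fun x : ℝ => (x, q.2)) ((1 : ℝ), (0 : ℝ)) q.1 :=
    (hasDerivAt_id q.1).prodMk (hasDerivAt_const q.1 q.2)
  have l2 : HasDerivAt (fun s : ℝ => (q.1, s)) ((0 : ℝ), (1 : ℝ)) q.2 :=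
    (hasDerivAt_const q.2 q.1).prodMk (hasDerivAt_id q.2)
  have m1 : fderiv ℝ (tpp a b) q (1, 0) = (deriv a q.1 + q.2 * deriv (deriv a) q.1,
      deriv b q.1 + q.2 * deriv (deriv b) q.1) := by
    have h1 := HasFDerivAt.comp_hasDerivAt (l := tpp a b) (f := fun x : ℝ => (x, q.2)) q.1 hd l1
    have h2 : HasDerivAt (fun x => tp a b x q.2) (deriv a q.1 + q.2 * deriv (deriv a) q.1,
        deriv b q.1 + q.2 * deriv (deriv b) q.1) q.1 :=
      ((da h q.1).add ((da1 h q.1).const_mul q.2)).prodMk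
        ((db h q.1).add ((db1 h q.1).const_mul q.2))
    exact h1.unique h2
  have m2 : fderiv ℝ (tpp a b) q (0, 1) = (deriv a q.1, deriv b q.1) := by
    have h1 := HasFDerivAt.comp_hasDerivAt (l := tpp a b) (f := fun s : ℝ => (q.1, s)) q.2 hd l2
    exact h1.unique (tp_ds a b q.1 q.2)
  have h3 := lin_apply (fderiv ℝ (tpp a b) q) v.1 v.2
  rw [Prod.mk.eta, hv, m1, m2] at h3
  have e1 := congrArg Prod.fst h3
  have e2 := congrArg Prod.snd h3
  simp only [Prod.fst_zero, Prod.snd_zero, Prod.fst_add, Prod.snd_add, Prod.smul_fst,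
    Prod.smul_snd, smul_eq_mul] at e1 e2
  have hκ := h.curvature q.1
  have e3 : v.1 * (q.2 * (deriv a q.1 * deriv (deriv b) q.1 -
      deriv b q.1 * deriv (deriv a) q.1)) = 0 := by
    linear_combination (deriv b q.1) * e1 - (deriv a q.1) * e2
  have e4 : v.1 = 0 := (mul_eq_zero.mp e3).resolve_right (mul_pos hq hκ).ne'
  rw [e4, zero_mul, zero_add] at e1 e2
  have e5 : v.2 = 0 := by
    rcases tne h q.1 with h1 | h1
    · exact (mul_eq_zero.mp e1.symm).resolve_right h1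
    · exact (mul_eq_zero.mp e2.symm).resolve_right h1
  exact Prod.ext e4 e5

theorem lift_exists {Φ : ℝ × ℝ → ℝ × ℝ} (hΦ : PFol (Ext a b) Φ) :
    ∃ Θ : ℝ × ℝ → ℝ × ℝ, ContDiff ℝ 1 Θ ∧ (∀ p v, fderiv ℝ Θ p v = 0 → v = 0) ∧
      (∀ p, 0 < (Θ p).2) ∧ ∀ p, tp a b (Θ p).1 (Θ p).2 = Φ p := by
  have hex : ∀ p, ∃ q : ℝ × ℝ, 0 < q.2 ∧ Φ p = tp a b q.1 q.2 := by
    intro p
    have h1 : Φ p ∈ Ext a b := by
      rw [← hΦ.range]
      exact ⟨p, rfl⟩
    obtain ⟨x, s, hs, hz⟩ := h1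
    exact ⟨(x, s), hs, hz⟩
  choose Q hQ1 hQ2 using hex
  have hΦc : Continuous Φ := hΦ.smooth.continuous
  have hloc : ∀ q : ℝ × ℝ, 0 < q.2 → ∃ g : ℝ × ℝ → ℝ × ℝ, ContDiffAt ℝ 1 g (tpp a b q) ∧
      g (tpp a b q) = q ∧ ∀ᶠ z in 𝓝 (tpp a b q), tpp a b (g z) = z := fun q hq =>
    loc_inv (tpp_smooth h) (tpp_reg h hq)
  obtain ⟨X, hXc, hX⟩ := lift_circle (P := 2 * π) (by positivity) (fun p => (Q p).1) (by
    intro p
    obtain ⟨g, hg1, hg2, hg3⟩ := hloc (Q p) (hQ1 p)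
    have e0 : tpp a b (Q p) = Φ p := (hQ2 p).symm
    rw [e0] at hg1 hg2 hg3
    have hgc : ContinuousAt (fun q => g (Φ q)) p :=
      ContinuousAt.comp (f := Φ) (g := g) hg1.continuousAt hΦc.continuousAt
    refine ⟨fun q => (g (Φ q)).1, hgc.fst, ?_⟩
    have h1 : ∀ᶠ q in 𝓝 p, tpp a b (g (Φ q)) = Φ q := hΦc.continuousAt.eventually hg3
    have h2 : ∀ᶠ q in 𝓝 p, 0 < (g (Φ q)).2 := by
      apply hgc.snd.eventually_const_lt
      show 0 < (g (Φ p)).2
      rw [hg2]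
      exact hQ1 p
    filter_upwards [h1, h2] with q q1 q2
    have h3 : tp a b (g (Φ q)).1 (g (Φ q)).2 = tp a b (Q q).1 (Q q).2 := q1.trans (hQ2 q)
    obtain ⟨k, hk, -⟩ := tp_inj h q2 (hQ1 q) h3
    exact ⟨k, hk⟩)
  have hΘΦ : ∀ p, tp a b (X p) (Q p).2 = Φ p := by
    intro p
    obtain ⟨k, hk⟩ := hX p
    have h1 := tp_per' h (X p) (Q p).2 k
    rw [← hk] at h1
    rw [← h1, hQ2 p]
  set Θ : ℝ × ℝ → ℝ × ℝ := fun p => (X p, (Q p).2) with hΘ
  have hsm : ContDiff ℝ 1 Θ := by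
    rw [contDiff_iff_contDiffAt]
    intro p
    obtain ⟨g, hg1, hg2, hg3⟩ := hloc (Θ p) (hQ1 p)
    have e0 : tpp a b (Θ p) = Φ p := hΘΦ p
    rw [e0] at hg1 hg2 hg3
    have hgd : ContDiffAt ℝ 1 (fun q => g (Φ q)) p := hg1.comp p hΦ.smooth.contDiffAt
    have hgc : ContinuousAt (fun q => g (Φ q)) p := hgd.continuousAt
    have h1 : ∀ᶠ q in 𝓝 p, tpp a b (g (Φ q)) = Φ q := hΦc.continuousAt.eventually hg3
    have h2 : ∀ᶠ q in 𝓝 p, 0 < (g (Φ q)).2 := by
      apply hgc.snd.eventually_const_lt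
      show 0 < (g (Φ p)).2
      rw [hg2]
      exact hQ1 p
    have h3 : ∀ᶠ q in 𝓝 p, |X q - (g (Φ q)).1| < 2 * π := by
      have h4 : ContinuousAt (fun q => |X q - (g (Φ q)).1|) p :=
        (hXc.continuousAt.sub hgc.fst).abs
      apply h4.eventually_lt_const
      show |X p - (g (Φ p)).1| < 2 * π
      rw [hg2]
      simp only [hΘ, sub_self, abs_zero]
      positivity
    refine hgd.congr_of_eventuallyEq ?_
    filter_upwards [h1, h2, h3] with q q1 q2 q3
    have h5 : tp a b (g (Φ q)).1 (g (Φ q)).2 = tp a b (X q) (Q q).2 := q1.trans (hΘΦ q).symm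
    obtain ⟨k, hk1, hk2⟩ := tp_inj h q2 (hQ1 q) h5
    have hk0 : k = 0 := by
      rw [hk1, add_sub_cancel_left, abs_mul, abs_of_pos (show (0 : ℝ) < 2 * π by positivity)] at q3
      have h6 : |(k : ℝ)| < 1 := by
        have h7 : (0 : ℝ) < 2 * π := by positivity
        nlinarith
      have h8 : |k| < 1 := by exact_mod_cast h6
      exact Int.abs_lt_one_iff.mp h8
    rw [hk0] at hk1
    refine Prod.ext ?_ hk2
    show X q = (g (Φ q)).1
    rw [hk1]
    simp
  refine ⟨Θ, hsm, ?_, hQ1, hΘΦ⟩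
  intro p v hv
  apply hΦ.regular p
  have h1 : HasFDerivAt Θ (fderiv ℝ Θ p) p := (hsm.differentiable (by norm_num) p).hasFDerivAt
  have h2 : HasFDerivAt (tpp a b) (fderiv ℝ (tpp a b) (Θ p)) (Θ p) :=
    ((tpp_smooth h).differentiable (by norm_num) _).hasFDerivAt
  have h3 := HasFDerivAt.comp (g := tpp a b) (f := Θ) p h2 h1
  have h4 : tpp a b ∘ Θ = Φ := funext hΘΦ
  rw [h4] at h3
  rw [h3.fderiv, ContinuousLinearMap.comp_apply, hv, map_zero]

theorem chart_exists {Φ : ℝ × ℝ → ℝ × ℝ} (hΦ : PFol (Ext a b) Φ) :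
    ∃ Θ : ℝ × ℝ → ℝ × ℝ, Chart Θ ∧ ∀ r z, z ∈ leafset a b Θ r ↔ ∃ t, z = Φ (r, t) := by
  obtain ⟨Θ, hsm, hreg, hpos, hΘΦ⟩ := lift_exists h hΦ
  have hΘc : Continuous Θ := hsm.continuous
  have hΦc : Continuous Φ := hΦ.smooth.continuous
  have hπ : (0 : ℝ) < 2 * π := by positivity
  -- translation by one period
  have hshift : ∀ p : ℝ × ℝ, ∃ k : ℤ, (Θ (p.1, p.2 + 1)).1 = (Θ p).1 + k * (2 * π) ∧
      (Θ (p.1, p.2 + 1)).2 = (Θ p).2 := by
    intro p
    have h1 : tp a b (Θ p).1 (Θ p).2 = tp a b (Θ (p.1, p.2 + 1)).1 (Θ (p.1, p.2 + 1)).2 := by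
      rw [hΘΦ, hΘΦ, hΦ.per]
    exact tp_inj h (hpos p) (hpos _) h1
  have hDc : Continuous fun p : ℝ × ℝ => (Θ (p.1, p.2 + 1)).1 - (Θ p).1 := by
    have h1 : Continuous fun p : ℝ × ℝ => Θ (p.1, p.2 + 1) :=
      hΘc.comp (continuous_fst.prodMk (continuous_snd.add continuous_const))
    exact h1.fst.sub hΘc.fst
  have hDk : ∀ p : ℝ × ℝ, ∃ k : ℤ, (Θ (p.1, p.2 + 1)).1 - (Θ p).1 = k * (2 * π) := by
    intro p
    obtain ⟨k, hk, -⟩ := hshift p
    exact ⟨k, by linarith⟩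
  obtain ⟨k, hk0⟩ := hDk (0, 0)
  have hk : ∀ r t, (Θ (r, t + 1)).1 = (Θ (r, t)).1 + k * (2 * π) := by
    intro r t
    have h1 := int_const hπ hDc hDk (r, t) (0, 0)
    simp only at h1 hk0
    rw [hk0] at h1
    linarith
  have hk2 : ∀ r t, (Θ (r, t + 1)).2 = (Θ (r, t)).2 := by
    intro r t
    obtain ⟨-, -, h1⟩ := hshift (r, t)
    exact h1
  have hshift' : ∀ r t (j : ℤ), Θ (r, t + j) = ((Θ (r, t)).1 + j * (k * (2 * π)), (Θ (r, t)).2) := by
    intro r t j
    have h1 : Function.Periodic (fun t => (Θ (r, t)).1 - t * (k * (2 * π))) 1 := by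
      intro t
      simp only [hk]
      ring
    have h2 : Function.Periodic (fun t => (Θ (r, t)).2) 1 := by
      intro t
      simp only [hk2]
    have h3 := (h1.int_mul j) t
    have h4 := (h2.int_mul j) t
    simp only [mul_one] at h3 h4
    refine Prod.ext ?_ ?_
    · simp only
      linarith
    · simp only
      exact h4
  -- the degree is one
  have hdeg : ∃ m : ℤ, m * k = 1 := by
    have hex : ∀ x, ∃ p, Φ p = tp a b x 1 := by
      intro x
      have h1 : tp a b x 1 ∈ Set.range Φ := by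
        rw [hΦ.range]
        exact ⟨x, 1, one_pos, rfl⟩
      exact h1
    choose R hR using hex
    have htc : Continuous fun x => tp a b x 1 := by
      have h1 : Continuous fun x : ℝ => tpp a b (x, 1) :=
        (tpp_smooth h).continuous.comp (continuous_id.prodMk continuous_const)
      exact h1
    have hlocΦ : ∀ x, ∃ g : ℝ × ℝ → ℝ × ℝ, ContinuousAt (fun y => g (tp a b y 1)) x ∧
        ∀ᶠ y in 𝓝 x, (g (tp a b y 1)).1 = (R y).1 ∧
          ∃ j : ℤ, (R y).2 = (g (tp a b y 1)).2 + j := by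
      intro x
      obtain ⟨g, hg1, hg2, hg3⟩ := loc_inv hΦ.smooth (q := R x) (hΦ.regular (R x))
      rw [hR x] at hg1 hg2 hg3
      refine ⟨g, ContinuousAt.comp (f := fun y => tp a b y 1) (g := g) hg1.continuousAt
        htc.continuousAt, ?_⟩
      filter_upwards [htc.continuousAt.eventually hg3] with y hy
      have h1 : Φ ((g (tp a b y 1)).1, (g (tp a b y 1)).2) = Φ ((R y).1, (R y).2) := by
        rw [Prod.mk.eta, Prod.mk.eta, hy, hR y]
      obtain ⟨h2, j, h3⟩ := hΦ.inj _ _ _ _ h1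
      exact ⟨h2, j, h3⟩
    have hR1c : Continuous fun x => (R x).1 := by
      rw [continuous_iff_continuousAt]
      intro x
      obtain ⟨g, hg1, hg2⟩ := hlocΦ x
      refine hg1.fst.congr ?_
      filter_upwards [hg2] with y hy using hy.1
    obtain ⟨tt, httc, htt⟩ := lift_circle (P := 1) one_pos (fun x => (R x).2) (by
      intro x
      obtain ⟨g, hg1, hg2⟩ := hlocΦ x
      refine ⟨fun y => (g (tp a b y 1)).2, hg1.snd, ?_⟩
      filter_upwards [hg2] with y hy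
      obtain ⟨-, j, hj⟩ := hy
      exact ⟨j, by rw [mul_one]; exact hj⟩)
    have hΦtt : ∀ x, Φ ((R x).1, tt x) = tp a b x 1 := by
      intro x
      obtain ⟨j, hj⟩ := htt x
      rw [mul_one] at hj
      have h1 := per_int' hΦ (R x).1 (tt x) j
      rw [← hj, Prod.mk.eta, hR x] at h1
      exact h1.symm
    have hWc : Continuous fun x => (Θ ((R x).1, tt x)).1 - x :=
      (hΘc.comp (hR1c.prodMk httc)).fst.sub continuous_id
    have hWk : ∀ x, ∃ j : ℤ, (Θ ((R x).1, tt x)).1 - x = j * (2 * π) := by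
      intro x
      have h1 : tp a b x 1 = tp a b (Θ ((R x).1, tt x)).1 (Θ ((R x).1, tt x)).2 := by
        rw [hΘΦ, hΦtt]
      obtain ⟨j, hj, -⟩ := tp_inj h one_pos (hpos _) h1
      exact ⟨j, by linarith⟩
    have h1 := int_const hπ hWc hWk (2 * π) 0
    have h2 : Φ ((R 0).1, tt 0) = Φ ((R (2 * π)).1, tt (2 * π)) := by
      rw [hΦtt, hΦtt]
      have h3 := tp_per h 0 1
      rw [zero_add] at h3
      exact h3.symm
    obtain ⟨h3, m, hm⟩ := hΦ.inj _ _ _ _ h2
    refine ⟨m, ?_⟩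
    rw [← h3, hm, hshift'] at h1
    simp only at h1
    have h4 : ((m : ℝ) * k) * (2 * π) = 1 * (2 * π) := by linarith
    have h5 : (m : ℝ) * k = 1 := mul_right_cancel₀ hπ.ne' h4
    exact_mod_cast h5
  obtain ⟨m, hm⟩ := hdeg
  have hkk : k * k = 1 := by
    rcases Int.eq_one_or_neg_one_of_mul_eq_one' hm with h1 | h1
    · rw [h1.2]
      norm_num
    · rw [h1.2]
      norm_num
  have hkkR : (k : ℝ) * k = 1 := by exact_mod_cast hkk
  have hk0R : (k : ℝ) ≠ 0 := by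
    intro h0
    rw [h0] at hkkR
    simp at hkkR
  set A : (ℝ × ℝ) →L[ℝ] (ℝ × ℝ) :=
    (ContinuousLinearMap.fst ℝ ℝ ℝ).prod ((k : ℝ) • ContinuousLinearMap.snd ℝ ℝ ℝ) with hA
  have hAv : ∀ v : ℝ × ℝ, A v = (v.1, (k : ℝ) * v.2) := by
    intro v
    simp [hA]
  refine ⟨fun p => Θ (A p), ⟨hsm.comp A.contDiff, ?_, fun p => hpos _, ?_, ?_⟩, ?_⟩
  · intro p v hv
    have h1 : HasFDerivAt Θ (fderiv ℝ Θ (A p)) (A p) :=
      (hsm.differentiable (by norm_num) _).hasFDerivAt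
    have h2 := HasFDerivAt.comp (g := Θ) (f := A) p h1 A.hasFDerivAt
    have h3 : fderiv ℝ (fun p => Θ (A p)) p = (fderiv ℝ Θ (A p)).comp A := h2.fderiv
    rw [h3, ContinuousLinearMap.comp_apply] at hv
    have h4 := hreg _ _ hv
    rw [hAv] at h4
    have h5 : v.1 = 0 := congrArg Prod.fst h4
    have h6 : (k : ℝ) * v.2 = 0 := congrArg Prod.snd h4
    exact Prod.ext h5 ((mul_eq_zero.mp h6).resolve_left hk0R)
  · intro r t
    simp only [hAv]
    rw [mul_add, mul_one, hshift']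
    refine Prod.ext ?_ rfl
    simp only
    linear_combination (2 * π) * hkkR
  · intro x s hs
    have h1 : tp a b x s ∈ Set.range Φ := by
      rw [hΦ.range]
      exact ⟨x, s, hs, rfl⟩
    obtain ⟨⟨r, t⟩, hrt⟩ := h1
    rw [← hΘΦ] at hrt
    obtain ⟨j, hj1, hj2⟩ := tp_inj h (hpos (r, t)) hs hrt
    refine ⟨(r, k * t + j), ?_, ?_⟩
    · simp only [hAv]
      have h2 : (k : ℝ) * (k * t + j) = t + ((k * j : ℤ) : ℝ) := by
        push_cast
        linear_combination t * hkkR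
      rw [h2, hshift']
      refine Prod.ext ?_ ?_
      · simp only
        rw [hj1]
        push_cast
        linear_combination (j * (2 * π)) * hkkR
      · simp only
        exact hj2.symm
    · rintro ⟨r', t'⟩ hp
      simp only [hAv] at hp
      have h2 : Φ (r, t) = Φ (r', k * t') := by
        rw [← hΘΦ (r', k * t'), hp, ← hΘΦ (r, t)]
        exact hrt
      obtain ⟨h3, i, hi⟩ := hΦ.inj _ _ _ _ h2
      subst h3
      rw [hi, hshift'] at hp
      have h4 := congrArg Prod.fst hp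
      simp only at h4
      rw [hj1] at h4
      have h5 : ((i : ℝ) * k) * (2 * π) = j * (2 * π) := by linarith
      have h6 : (i : ℝ) * k = j := mul_right_cancel₀ hπ.ne' h5
      refine Prod.ext rfl ?_
      simp only
      have h7 : t' = k * (k * t') := by linear_combination (-t') * hkkR
      rw [h7, hi]
      linear_combination h6
  · intro r z
    constructor
    · rintro ⟨t, ht⟩
      simp only [hAv] at ht
      rw [hΘΦ] at ht
      exact ⟨_, ht⟩
    · rintro ⟨t, ht⟩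
      refine ⟨k * t, ?_⟩
      simp only [hAv]
      rw [hΘΦ]
      have h7 : (k : ℝ) * (k * t) = t := by linear_combination t * hkkR
      rw [h7]
      exact ht

end Pool.Agent.Run7.h235.OB
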